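import Mathlib

/-! Boolean-valued sets: names, their equality and membership values, mixing. -/

namespace Pool.Agent.P.MP_54b694_lc

section calculus

variable {B : Type} [CompleteBooleanAlgebra B]

theorem le_of_cases {ι : Sort*} {Γ c : B} {f : ι → B} (h : Γ ≤ ⨆ i, f i)
    (H : ∀ i Γ', Γ' ≤ Γ → Γ' ≤ f i → Γ' ≤ c) : Γ ≤ c := by
  calc Γ = Γ ⊓ ⨆ i, f i := (inf_eq_left.mpr h).symm
    _ = ⨆ i, Γ ⊓ f i := inf_iSup_eq _ _
    _ ≤ c := iSup_le (fun i => H i _ inf_le_left inf_le_right)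

theorem le_imp {Γ a b : B} (H : ∀ Γ', Γ' ≤ Γ → Γ' ≤ a → Γ' ≤ b) : Γ ≤ a ⇨ b :=
  le_himp_iff.mpr (H _ inf_le_left inf_le_right)

theorem imp_elim {Γ a b : B} (h1 : Γ ≤ a ⇨ b) (h2 : Γ ≤ a) : Γ ≤ b :=
  (le_inf h1 h2).trans himp_inf_le

theorem le_of_dense {p b : B} (H : ∀ q, q ≠ ⊥ → q ≤ p → ∃ r, r ≠ ⊥ ∧ r ≤ q ∧ r ≤ b) : p ≤ b := by
  by_contra h
  have h1 : p ⊓ bᶜ ≠ ⊥ := fun h2 => h (by
    rwa [← disjoint_iff, disjoint_compl_right_iff] at h2)
  obtain ⟨r, hr, h2, h3⟩ := H _ h1 inf_le_left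
  exact hr (le_bot_iff.mp ((le_inf h3 (h2.trans inf_le_right)).trans inf_compl_eq_bot.le))

theorem exists_of_le_iSup {ι : Sort*} {q : B} {f : ι → B} (hq : q ≠ ⊥) (h : q ≤ ⨆ i, f i) :
    ∃ i r, r ≠ ⊥ ∧ r ≤ q ∧ r ≤ f i := by
  by_contra hcon
  push Not at hcon
  apply hq
  apply le_bot_iff.mp
  refine le_of_cases h (fun i Γ h1 h2 => ?_)
  by_contra h3
  exact hcon i Γ (fun h4 => h3 h4.le) h1 h2

theorem exists_of_not_le {q b : B} (h : ¬ q ≤ b) : ∃ r, r ≠ ⊥ ∧ r ≤ q ∧ r ≤ bᶜ :=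
  ⟨q ⊓ bᶜ, fun h2 => h (by rwa [← disjoint_iff, disjoint_compl_right_iff] at h2),
    inf_le_left, inf_le_right⟩

theorem false_of_le_compl {r a : B} (hr : r ≠ ⊥) (h1 : r ≤ a) (h2 : r ≤ aᶜ) : False :=
  hr (le_bot_iff.mp ((le_inf h1 h2).trans inf_compl_eq_bot.le))

theorem le_compl_of {p a : B} (H : ∀ q, q ≠ ⊥ → q ≤ p → q ≤ a → False) : p ≤ aᶜ := by
  by_contra h
  obtain ⟨r, hr, h1, h2⟩ := exists_of_not_le h
  exact H r hr h1 (by simpa using h2)

end calculus

/-- Names for `B`-valued sets. -/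
inductive Name (B : Type) : Type 1
  | mk (ι : Type) (A : ι → Name B) (b : ι → B) : Name B

namespace Name

variable {B : Type}

def idx : Name B → Type
  | mk ι _ _ => ι

def val : (x : Name B) → x.idx → Name B
  | mk _ A _ => A

def bv : (x : Name B) → x.idx → B
  | mk _ _ b => b

variable [CompleteBooleanAlgebra B]

def beq : Name B → Name B → B
  | mk _ A a, mk _ C c =>
    (⨅ i, a i ⇨ ⨆ j, c j ⊓ beq (A i) (C j)) ⊓ (⨅ j, c j ⇨ ⨆ i, a i ⊓ beq (A i) (C j))

def bmem (x y : Name B) : B := ⨆ j, y.bv j ⊓ beq x (y.val j)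

theorem beq_unfold (x y : Name B) : beq x y =
    (⨅ i, x.bv i ⇨ ⨆ j, y.bv j ⊓ beq (x.val i) (y.val j)) ⊓
      (⨅ j, y.bv j ⇨ ⨆ i, x.bv i ⊓ beq (x.val i) (y.val j)) := by
  cases x; cases y; rfl

theorem bmem_mk (x : Name B) (ι : Type) (A : ι → Name B) (b : ι → B) :
    bmem x (mk ι A b) = ⨆ j, b j ⊓ beq x (A j) := rfl

theorem beq_refl (x : Name B) : beq x x = ⊤ := by
  induction x with
  | mk ι A a ih =>
    have h : ∀ i, a i ≤ ⨆ j, a j ⊓ beq (A i) (A j) := fun i =>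
      le_iSup_of_le i (by rw [ih i, inf_top_eq])
    have h' : ∀ j, a j ≤ ⨆ i, a i ⊓ beq (A i) (A j) := fun j =>
      le_iSup_of_le j (by rw [ih j, inf_top_eq])
    simp only [beq, inf_eq_top_iff, iInf_eq_top, himp_eq_top_iff]
    exact ⟨h, h'⟩

theorem le_beq_refl (Γ : B) (x : Name B) : Γ ≤ beq x x := by rw [beq_refl]; exact le_top

theorem beq_symm (x y : Name B) : beq x y = beq y x := by
  induction x generalizing y with
  | mk ι A a ih =>
    cases y with
    | mk κ C c =>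
      simp only [beq, ih]
      rw [inf_comm]

theorem le_beq_symm {Γ : B} {x y : Name B} (h : Γ ≤ beq x y) : Γ ≤ beq y x := by
  rwa [beq_symm]

theorem le_beq_trans {x y z : Name B} {Γ : B} (h1 : Γ ≤ beq x y) (h2 : Γ ≤ beq y z) :
    Γ ≤ beq x z := by
  induction x generalizing y z Γ with
  | mk ι A a ih =>
    cases y with
    | mk κ C c =>
      cases z with
      | mk μ D d =>
        simp only [beq, le_inf_iff, le_iInf_iff] at h1 h2 ⊢
        constructor
        · intro i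
          refine le_imp (fun Γ1 g1 ha => ?_)
          refine le_of_cases (imp_elim (g1.trans (h1.1 i)) ha) (fun j Γ2 g2 hj => ?_)
          rw [le_inf_iff] at hj
          refine le_of_cases (imp_elim ((g2.trans g1).trans (h2.1 j)) hj.1)
            (fun k Γ3 g3 hk => ?_)
          rw [le_inf_iff] at hk
          exact le_iSup_of_le k (le_inf hk.1 (ih i (g3.trans hj.2) hk.2))
        · intro k
          refine le_imp (fun Γ1 g1 hd => ?_)
          refine le_of_cases (imp_elim (g1.trans (h2.2 k)) hd) (fun j Γ2 g2 hj => ?_)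
          rw [le_inf_iff] at hj
          refine le_of_cases (imp_elim ((g2.trans g1).trans (h1.2 j)) hj.1)
            (fun i Γ3 g3 hi => ?_)
          rw [le_inf_iff] at hi
          exact le_iSup_of_le i (le_inf hi.1 (ih i hi.2 (g3.trans hj.2)))

theorem bv_le_bmem (x : Name B) (i : x.idx) : x.bv i ≤ bmem (x.val i) x :=
  le_iSup_of_le i (le_inf le_rfl (le_beq_refl _ _))

theorem le_bmem_mk {ι : Type} {A : ι → Name B} {b : ι → B} {Γ : B} {x : Name B} (i : ι)
    (h1 : Γ ≤ b i) (h2 : Γ ≤ beq x (A i)) : Γ ≤ bmem x (mk ι A b) :=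
  le_iSup_of_le (f := fun j => b j ⊓ beq x (A j)) i (le_inf h1 h2)

theorem le_bmem_left {x x' y : Name B} {Γ : B} (h1 : Γ ≤ beq x x') (h2 : Γ ≤ bmem x y) :
    Γ ≤ bmem x' y := by
  refine le_of_cases h2 (fun j Γ1 g1 hj => ?_)
  rw [le_inf_iff] at hj
  exact le_iSup_of_le j (le_inf hj.1 (le_beq_trans (le_beq_symm (g1.trans h1)) hj.2))

theorem le_bmem_right {x y y' : Name B} {Γ : B} (h1 : Γ ≤ beq y y') (h2 : Γ ≤ bmem x y) :
    Γ ≤ bmem x y' := by
  refine le_of_cases h2 (fun j Γ1 g1 hj => ?_)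
  rw [le_inf_iff] at hj
  have h3 := g1.trans h1
  rw [beq_unfold, le_inf_iff, le_iInf_iff] at h3
  exact le_bmem_left (le_beq_symm hj.2) (imp_elim (h3.1 j) hj.1)

theorem le_beq_of_ext {x y : Name B} {Γ : B}
    (h1 : ∀ i Γ', Γ' ≤ Γ → Γ' ≤ x.bv i → Γ' ≤ bmem (x.val i) y)
    (h2 : ∀ j Γ', Γ' ≤ Γ → Γ' ≤ y.bv j → Γ' ≤ bmem (y.val j) x) : Γ ≤ beq x y := by
  rw [beq_unfold, le_inf_iff, le_iInf_iff, le_iInf_iff]
  refine ⟨fun i => le_imp (h1 i), fun j => le_imp (fun Γ' g h => ?_)⟩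
  simp only [beq_symm _ (y.val j)]
  exact h2 j Γ' g h

theorem bmem_self (x : Name B) : bmem x x = ⊥ := by
  induction x with
  | mk ι A a ih =>
    apply le_bot_iff.mp
    refine le_of_cases (le_of_eq (bmem_mk _ ι A a)) (fun j Γ g hj => ?_)
    rw [le_inf_iff] at hj
    rw [← ih j]
    have h1 : Γ ≤ bmem (A j) (mk ι A a) := le_bmem_mk j hj.1 (le_beq_refl _ _)
    exact le_bmem_right hj.2 h1

/-- Mixing along a disjoint family. -/
theorem exists_mix {ι : Type} (a : ι → B) (x : ι → Name B)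
    (hd : ∀ i j, i ≠ j → a i ⊓ a j = ⊥) : ∃ u, ∀ i, a i ≤ beq u (x i) := by
  refine ⟨mk (Σ i, (x i).idx) (fun s => (x s.1).val s.2) (fun s => a s.1 ⊓ (x s.1).bv s.2),
    fun i => le_beq_of_ext ?_ ?_⟩
  · rintro ⟨j, k⟩ Γ g h
    have h' : Γ ≤ a j ⊓ (x j).bv k := h
    by_cases hij : i = j
    · subst hij
      exact (h'.trans inf_le_right).trans (bv_le_bmem _ k)
    · exact ((le_inf g (h'.trans inf_le_left)).trans (hd i j hij).le).trans bot_le
  · intro k Γ g h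
    exact le_bmem_mk (ι := Σ i, (x i).idx) ⟨i, k⟩ (le_inf g h) (le_beq_refl _ _)

/-- The maximum principle. -/
theorem exists_max (φ : Name B → B) (hφ : ∀ x y, beq x y ⊓ φ x ≤ φ y) :
    ∃ u, ∀ x, φ x ≤ φ u := by
  classical
  let S := Set.range φ
  let r : S → S → Prop := WellOrderingRel
  have wo : IsWellOrder S r := WellOrderingRel.isWellOrder
  let a : S → B := fun s => (s : B) ⊓ (⨆ t : {t // r t s}, (t.1 : B))ᶜ
  choose x hx using fun s : S => s.2
  have hd : ∀ i j, i ≠ j → a i ⊓ a j = ⊥ := by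
    have key : ∀ i j, r i j → a i ⊓ a j = ⊥ := by
      intro i j hij
      apply le_bot_iff.mp
      have h1 : a i ≤ ⨆ t : {t // r t j}, (t.1 : B) :=
        inf_le_left.trans (le_iSup_of_le (f := fun t : {t // r t j} => (t.1 : B)) ⟨i, hij⟩ le_rfl)
      exact (inf_le_inf h1 inf_le_right).trans inf_compl_eq_bot.le
    intro i j hij
    rcases wo.trichotomous i j |> fun h => (by
      by_contra hc
      push Not at hc
      exact hij (h hc.1 hc.2) : r i j ∨ r j i) with h | h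
    · exact key i j h
    · rw [inf_comm]; exact key j i h
  obtain ⟨u, hu⟩ := exists_mix a x hd
  have h1 : ∀ s : S, (s : B) ≤ φ u := by
    intro s
    induction s using wo.wf.induction with
    | _ s ih =>
      have h2 : a s ≤ φ u := by
        refine le_trans ?_ (hφ (x s) u)
        refine le_inf (le_beq_symm (hu s)) ?_
        rw [hx s]; exact inf_le_left
      have h3 : (⨆ t : {t // r t s}, (t.1 : B)) ≤ φ u := iSup_le (fun t => ih t.1 t.2)
      calc (s : B) ≤ a s ⊔ ⨆ t : {t // r t s}, (t.1 : B) := by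
            simp only [a]
            rw [sup_comm, sup_inf_left, sup_compl_eq_top, inf_top_eq]
            exact le_sup_right
        _ ≤ φ u := sup_le h2 h3
  exact ⟨u, fun y => h1 ⟨φ y, y, rfl⟩⟩

end Name

end Pool.Agent.P.MP_54b694_lc
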