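import Mathlib

/-! Models of ZFC, and the notions of the problem read inside such a model `(M, E)`. -/

namespace Pool.Agent.P.MP_54b694_lc

universe u

/-- First-order formulas of the language of set theory, with variables named by numbers. -/
inductive Fml : Type
  | mem : ℕ → ℕ → Fml
  | eq : ℕ → ℕ → Fml
  | bot : Fml
  | imp : Fml → Fml → Fml
  | all : ℕ → Fml → Fml

variable {M : Type u} (E : M → M → Prop)

/-- Tarski satisfaction in the structure `(M, E)` under an assignment of the variables. -/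
def Sat (φ : Fml) : (ℕ → M) → Prop :=
  Fml.rec (motive := fun _ => (ℕ → M) → Prop)
    (fun i j v => E (v i) (v j)) (fun i j v => v i = v j) (fun _ => False)
    (fun _ _ p q v => p v → q v) (fun i _ p v => ∀ x, p (Function.update v i x)) φ

/-- `w` contains the empty set and is closed under `x ↦ x ∪ {x}`. -/
def IsInductive (w : M) : Prop :=
  (∃ e, E e w ∧ ∀ x, ¬ E x e) ∧ ∀ x, E x w → ∃ s, E s w ∧ ∀ y, E y s ↔ E y x ∨ y = x

/-- `(M, E)` is a model of ZFC: extensionality, foundation, pairing, union, power set, infinity,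
the separation and replacement schemes (all formulas, all parameters), and choice. -/
def IsZFC : Prop :=
  (∀ a b, (∀ x, E x a ↔ E x b) → a = b) ∧
  (∀ a, (∃ x, E x a) → ∃ x, E x a ∧ ∀ y, E y x → ¬ E y a) ∧
  (∀ a b, ∃ c, ∀ x, E x c ↔ x = a ∨ x = b) ∧
  (∀ a, ∃ c, ∀ x, E x c ↔ ∃ y, E y a ∧ E x y) ∧
  (∀ a, ∃ c, ∀ x, E x c ↔ ∀ y, E y x → E y a) ∧
  (∃ w, IsInductive E w) ∧
  (∀ (φ : Fml) (v : ℕ → M) (i : ℕ) (a : M),
    ∃ b, ∀ x, E x b ↔ E x a ∧ Sat E φ (Function.update v i x)) ∧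
  (∀ (φ : Fml) (v : ℕ → M) (i j : ℕ) (a : M),
    (∀ x, E x a → ∃! y, Sat E φ (Function.update (Function.update v i x) j y)) →
    ∃ b, ∀ y, E y b ↔ ∃ x, E x a ∧ Sat E φ (Function.update (Function.update v i x) j y)) ∧
  (∀ a, (∀ x, E x a → ∃ z, E z x) → (∀ x y z, E x a → E y a → E z x → E z y → x = y) →
    ∃ c, ∀ x, E x a → ∃! z, E z x ∧ E z c)

/-- `p` is the Kuratowski pair `{{a}, {a, b}}`. -/
def IsOPair (p a b : M) : Prop :=
  ∀ x, E x p ↔ (∀ y, E y x ↔ y = a) ∨ (∀ y, E y x ↔ y = a ∨ y = b)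

/-- The pair `(a, b)` belongs to `f`. -/
def Rel (f a b : M) : Prop := ∃ p, E p f ∧ IsOPair E p a b

/-- `f` is an injective function from `A` into `B`. -/
def IsInjection (f A B : M) : Prop :=
  (∀ p, E p f → ∃ a b, E a A ∧ E b B ∧ IsOPair E p a b) ∧ (∀ a, E a A → ∃ b, Rel E f a b) ∧
  (∀ a b b', Rel E f a b → Rel E f a b' → b = b') ∧ ∀ a a' b, Rel E f a b → Rel E f a' b → a = a'

/-- `|A| ≤ |B|`. -/
def CardLE (A B : M) : Prop := ∃ f, IsInjection E f A B

/-- `|A| < |B|`. -/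
def CardLT (A B : M) : Prop := CardLE E A B ∧ ¬ CardLE E B A

/-- `A` injects into the least inductive set `ω`. -/
def IsCountable (A : M) : Prop :=
  ∃ w, IsInductive E w ∧ (∀ w', IsInductive E w' → ∀ x, E x w → E x w') ∧ CardLE E A w

/-- `(R, L)` is the real line: a nonempty strict linear order without endpoints that has a
countable dense subset and in which nonempty bounded sets have least upper bounds. -/
def IsRealLine (R L : M) : Prop :=
  (∃ x, E x R) ∧ (∀ x, E x R → ¬ Rel E L x x) ∧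
  (∀ x y z, E x R → E y R → E z R → Rel E L x y → Rel E L y z → Rel E L x z) ∧
  (∀ x y, E x R → E y R → Rel E L x y ∨ x = y ∨ Rel E L y x) ∧
  (∀ x, E x R → (∃ y, E y R ∧ Rel E L x y) ∧ ∃ y, E y R ∧ Rel E L y x) ∧
  (∃ D, IsCountable E D ∧ (∀ d, E d D → E d R) ∧
    ∀ x y, E x R → E y R → Rel E L x y → ∃ d, E d D ∧ Rel E L x d ∧ Rel E L d y) ∧
  ∀ A, (∀ a, E a A → E a R) → (∃ a, E a A) → (∃ b, E b R ∧ ∀ a, E a A → ¬ Rel E L b a) →
    ∃ s, E s R ∧ (∀ a, E a A → ¬ Rel E L s a) ∧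
      ∀ b, E b R → (∀ a, E a A → ¬ Rel E L b a) → ¬ Rel E L b s

/-- `A ⊆ R`, and every open interval contains an open interval disjoint from `A`. -/
def NowhereDense (R L A : M) : Prop :=
  (∀ a, E a A → E a R) ∧ ∀ x y, E x R → E y R → Rel E L x y →
    ∃ x' y', E x' R ∧ E y' R ∧ Rel E L x x' ∧ Rel E L x' y' ∧ Rel E L y' y ∧
      ∀ a, E a A → ¬ (Rel E L x' a ∧ Rel E L a y')

/-- `A` is the union of a countable family of nowhere dense sets. -/
def Meager (R L A : M) : Prop :=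
  ∃ N, IsCountable E N ∧ (∀ n, E n N → NowhereDense E R L n) ∧ ∀ a, E a A ↔ ∃ n, E n N ∧ E a n

/-- `F` is a family of meager sets whose union is `R`. -/
def MeagerCover (R L F : M) : Prop :=
  (∀ A, E A F → Meager E R L A) ∧ ∀ x, E x R ↔ ∃ A, E A F ∧ E x A

/-- `|K| = cov(M)`: `|K|` is the least size of a family of meager sets with union `R`. -/
def IsCov (R L K : M) : Prop :=
  (∃ F, MeagerCover E R L F ∧ CardLE E F K) ∧ ∀ F, MeagerCover E R L F → CardLE E K F

/-- `|K|` is singular: `K` is uncountable and is a union of fewer than `|K|` sets of size `< |K|`. -/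
def IsSingular (K : M) : Prop :=
  ¬ IsCountable E K ∧
    ∃ G, CardLT E G K ∧ (∀ g, E g G → CardLT E g K) ∧ ∀ x, E x K ↔ ∃ g, E g G ∧ E x g

/-- `X ⊆ R` is `|K|`-Luzin: `|X| ≥ |K|` and `|X ∩ A| < |K|` for every meager set `A`. -/
def IsLuzin (R L K X : M) : Prop :=
  (∀ x, E x X → E x R) ∧ CardLE E K X ∧
    ∀ A Y, Meager E R L A → (∀ x, E x Y ↔ E x X ∧ E x A) → CardLT E Y K

end Pool.Agent.P.MP_54b694_lc
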