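import Mathlib
import Pool.Agent.P.MP_54b694_lc.BV

/-! Ultrafilter quotients of the Boolean-valued universe and representable properties. -/

namespace Pool.Agent.P.MP_54b694_lc

open Name

/-- Ultrafilters on a Boolean algebra. -/
structure Ultra (B : Type) [CompleteBooleanAlgebra B] where
  s : B → Prop
  top : s ⊤
  bot : ¬ s ⊥
  mono : ∀ {a b}, a ≤ b → s a → s b
  inf : ∀ {a b}, s a → s b → s (a ⊓ b)
  compl : ∀ a, s a ∨ s aᶜ

variable {B : Type} [CompleteBooleanAlgebra B]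

theorem exists_ultra {p : B} (hp : p ≠ ⊥) : ∃ U : Ultra B, U.s p := by
  have hprop : (Order.Ideal.principal pᶜ).IsProper := by
    apply Order.Ideal.isProper_of_notMem (p := ⊤)
    simpa using hp
  obtain ⟨I, hle, hI⟩ := hprop.exists_le_maximal
  have hpr : I.IsPrime := Order.Ideal.IsMaximal.isPrime
  have htop : ⊤ ∉ I := hI.toIsProper.top_notMem
  refine ⟨⟨fun b => b ∉ I, htop, fun h => h I.bot_mem, fun hab ha hb => ha (I.lower hab hb),
    fun ha hb hab => (hpr.mem_or_mem hab).elim ha hb, fun a => ?_⟩, fun h => ?_⟩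
  · by_contra hc
    push Not at hc
    have := Order.Ideal.sup_mem hc.1 hc.2
    rw [sup_compl_eq_top] at this
    exact htop this
  · have h1 : pᶜ ∈ I := hle (by simp)
    have := Order.Ideal.sup_mem h h1
    rw [sup_compl_eq_top] at this
    exact htop this

namespace Ultra

variable (U : Ultra B)

theorem inf_iff {a b : B} : U.s (a ⊓ b) ↔ U.s a ∧ U.s b :=
  ⟨fun h => ⟨U.mono inf_le_left h, U.mono inf_le_right h⟩, fun h => U.inf h.1 h.2⟩

theorem compl_iff {a : B} : U.s aᶜ ↔ ¬ U.s a :=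
  ⟨fun h1 h2 => U.bot (by simpa using U.inf h2 h1), fun h => (U.compl a).resolve_left h⟩

theorem sup_iff {a b : B} : U.s (a ⊔ b) ↔ U.s a ∨ U.s b := by
  have : a ⊔ b = (aᶜ ⊓ bᶜ)ᶜ := by simp
  rw [this, compl_iff, inf_iff, compl_iff, compl_iff]
  tauto

theorem himp_iff {a b : B} : U.s (a ⇨ b) ↔ (U.s a → U.s b) := by
  rw [himp_eq, sup_iff, compl_iff]
  tauto

theorem ne_bot {a : B} (h : U.s a) : a ≠ ⊥ := fun h' => U.bot (h' ▸ h)

end Ultra

theorem le_of_ultra {a b : B} (h : ∀ U : Ultra B, U.s a → U.s b) : a ≤ b := by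
  by_contra hc
  obtain ⟨r, hr, h1, h2⟩ := exists_of_not_le hc
  obtain ⟨U, hU⟩ := exists_ultra hr
  exact U.compl_iff.mp (U.mono h2 hU) (h U (U.mono h1 hU))

def Ultra.setoid (U : Ultra B) : Setoid (Name B) where
  r x y := U.s (beq x y)
  iseqv := ⟨fun x => by rw [beq_refl]; exact U.top, fun h => by rwa [beq_symm],
    fun h1 h2 => U.mono (le_beq_trans inf_le_left inf_le_right) (U.inf h1 h2)⟩

/-- The two-valued quotient of the Boolean-valued universe by an ultrafilter. -/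
def Mod (U : Ultra B) : Type 1 := Quotient U.setoid

def mk (U : Ultra B) (x : Name B) : Mod U := Quotient.mk U.setoid x

def mem (U : Ultra B) : Mod U → Mod U → Prop :=
  Quotient.lift₂ (fun x y => U.s (bmem x y)) (by
    intro x y x' y' hx hy
    apply propext
    constructor
    · intro h
      exact U.mono (le_bmem_right (inf_le_left.trans inf_le_right)
        (le_bmem_left (inf_le_left.trans inf_le_left) inf_le_right)) (U.inf (U.inf hx hy) h)
    · intro h
      exact U.mono (le_bmem_right (le_beq_symm (inf_le_left.trans inf_le_right))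
        (le_bmem_left (le_beq_symm (inf_le_left.trans inf_le_left)) inf_le_right))
        (U.inf (U.inf hx hy) h))

theorem mem_mk {U : Ultra B} {x y : Name B} : mem U (mk U x) (mk U y) ↔ U.s (bmem x y) := Iff.rfl

theorem mk_eq {U : Ultra B} {x y : Name B} : mk U x = mk U y ↔ U.s (beq x y) := Quotient.eq

theorem mk_surj {U : Ultra B} (y : Mod U) : ∃ x, mk U x = y := Quotient.exists_rep y

/-- A property of ultrafilters that has a Boolean value. -/
def Rep (P : Ultra B → Prop) : Prop := ∃ b : B, ∀ U : Ultra B, U.s b ↔ P U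

/-- `p` forces `P`. -/
def Forces (p : B) (P : Ultra B → Prop) : Prop := ∀ U : Ultra B, U.s p → P U

theorem Forces.mono {p q : B} {P : Ultra B → Prop} (h : Forces p P) (hq : q ≤ p) : Forces q P :=
  fun U hU => h U (U.mono hq hU)

theorem Forces.le {p b : B} (h : Forces p (fun U => U.s b)) : p ≤ b := le_of_ultra h

theorem Forces.exists {p : B} {P : Ultra B → Prop} (h : Forces p P) (hp : p ≠ ⊥) :
    ∃ U, U.s p ∧ P U := by
  obtain ⟨U, hU⟩ := exists_ultra hp
  exact ⟨U, hU, h U hU⟩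

namespace Rep

variable {P Q : Ultra B → Prop}

theorem of_s (b : B) : Rep (fun U : Ultra B => U.s b) := ⟨b, fun _ => Iff.rfl⟩

theorem mem (x y : Name B) : Rep (fun U : Ultra B => mem U (mk U x) (mk U y)) :=
  ⟨bmem x y, fun _ => mem_mk.symm⟩

theorem eq (x y : Name B) : Rep (fun U : Ultra B => mk U x = mk U y) :=
  ⟨beq x y, fun _ => mk_eq.symm⟩

theorem false : Rep (fun _ : Ultra B => False) := ⟨⊥, fun U => ⟨U.bot, False.elim⟩⟩

theorem not (h : Rep P) : Rep (fun U => ¬ P U) := by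
  obtain ⟨b, hb⟩ := h
  exact ⟨bᶜ, fun U => by rw [U.compl_iff, hb]⟩

theorem and (h1 : Rep P) (h2 : Rep Q) : Rep (fun U => P U ∧ Q U) := by
  obtain ⟨a, ha⟩ := h1
  obtain ⟨b, hb⟩ := h2
  exact ⟨a ⊓ b, fun U => by rw [U.inf_iff, ha, hb]⟩

theorem or (h1 : Rep P) (h2 : Rep Q) : Rep (fun U => P U ∨ Q U) := by
  obtain ⟨a, ha⟩ := h1
  obtain ⟨b, hb⟩ := h2
  exact ⟨a ⊔ b, fun U => by rw [U.sup_iff, ha, hb]⟩

theorem imp (h1 : Rep P) (h2 : Rep Q) : Rep (fun U => P U → Q U) := by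
  obtain ⟨a, ha⟩ := h1
  obtain ⟨b, hb⟩ := h2
  exact ⟨a ⇨ b, fun U => by rw [U.himp_iff, ha, hb]⟩

theorem iff (h1 : Rep P) (h2 : Rep Q) : Rep (fun U => P U ↔ Q U) := by
  simp only [iff_def]
  exact (h1.imp h2).and (h2.imp h1)

/-- Boolean values of a representable family, automatically extensional. -/
theorem values {P : ∀ U : Ultra B, Mod U → Prop} (h : ∀ x, Rep (fun U => P U (mk U x))) :
    ∃ φ : Name B → B, (∀ x U, U.s (φ x) ↔ P U (mk U x)) ∧ ∀ x y, beq x y ⊓ φ x ≤ φ y := by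
  choose φ hφ using h
  refine ⟨φ, hφ, fun x y => le_of_ultra (fun U hU => ?_)⟩
  rw [U.inf_iff, hφ, ← mk_eq] at hU
  rw [hφ]
  show P U (mk U y)
  rw [← hU.1]
  exact hU.2

theorem witness {P : ∀ U : Ultra B, Mod U → Prop} (h : ∀ x, Rep (fun U => P U (mk U x))) :
    ∃ u, ∀ U, (∃ y, P U y) → P U (mk U u) := by
  obtain ⟨φ, hφ, hext⟩ := values h
  obtain ⟨u, hu⟩ := exists_max φ hext
  refine ⟨u, ?_⟩
  rintro U ⟨y, hy⟩
  obtain ⟨x, rfl⟩ := mk_surj y
  exact (hφ u U).mp (U.mono (hu x) ((hφ x U).mpr hy))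

theorem ex {P : ∀ U : Ultra B, Mod U → Prop} (h : ∀ x, Rep (fun U => P U (mk U x))) :
    Rep (fun U => ∃ y, P U y) := by
  obtain ⟨u, hu⟩ := witness h
  obtain ⟨b, hb⟩ := h u
  exact ⟨b, fun U => by rw [hb]; exact ⟨fun h' => ⟨_, h'⟩, hu U⟩⟩

theorem all {P : ∀ U : Ultra B, Mod U → Prop} (h : ∀ x, Rep (fun U => P U (mk U x))) :
    Rep (fun U => ∀ y, P U y) := by
  have := (ex (P := fun U y => ¬ P U y) (fun x => (h x).not)).not
  simpa using this

theorem localize (h : Rep P) {U : Ultra B} (hU : P U) {p : B} (hp : U.s p) :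
    ∃ q, q ≠ ⊥ ∧ q ≤ p ∧ Forces q P := by
  obtain ⟨b, hb⟩ := h
  exact ⟨p ⊓ b, U.ne_bot (U.inf hp ((hb U).mpr hU)), inf_le_left,
    fun V hV => (hb V).mp (V.mono inf_le_right hV)⟩

theorem of_dense (h : Rep P) {p : B}
    (H : ∀ q, q ≠ ⊥ → q ≤ p → ∃ r, r ≠ ⊥ ∧ r ≤ q ∧ Forces r P) : Forces p P := by
  obtain ⟨b, hb⟩ := h
  have : p ≤ b := le_of_dense (fun q hq hqp => by
    obtain ⟨r, h1, h2, h3⟩ := H q hq hqp
    exact ⟨r, h1, h2, le_of_ultra (fun U hU => (hb U).mpr (h3 U hU))⟩)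
  exact fun U hU => (hb U).mp (U.mono this hU)

theorem of_contra (h : Rep P) {p : B}
    (H : ∀ q, q ≠ ⊥ → q ≤ p → Forces q (fun U => ¬ P U) → False) : Forces p P := by
  intro U hU
  by_contra hc
  obtain ⟨q, h1, h2, h3⟩ := h.not.localize hc hU
  exact H q h1 h2 h3

/-- To prove `P U → Q U` for all `U`, it suffices to refute a condition forcing `P` and `¬ Q`. -/
theorem imp_of_contra (h1 : Rep P) (h2 : Rep Q)
    (H : ∀ q, q ≠ ⊥ → Forces q P → Forces q (fun U => ¬ Q U) → False) (U : Ultra B) (hU : P U) :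
    Q U := by
  by_contra hc
  obtain ⟨q, g1, -, g3⟩ := (h1.and h2.not).localize ⟨hU, hc⟩ U.top
  exact H q g1 (fun V hV => (g3 V hV).1) (fun V hV => (g3 V hV).2)

/-- To prove `P U → Q U` for all `U`, show that below conditions forcing `P` some force `Q`. -/
theorem imp_of_dense (h1 : Rep P) (h2 : Rep Q)
    (H : ∀ q, q ≠ ⊥ → Forces q P → ∃ r, r ≠ ⊥ ∧ r ≤ q ∧ Forces r Q) (U : Ultra B) (hU : P U) :
    Q U := by
  refine imp_of_contra h1 h2 (fun q hq hP hQ => ?_) U hU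
  obtain ⟨r, g1, g2, g3⟩ := H q hq hP
  obtain ⟨V, hV, hV'⟩ := g3.exists g1
  exact hQ V (V.mono g2 hV) hV'

end Rep

theorem Forces.ex {P : ∀ U : Ultra B, Mod U → Prop} (h : ∀ x, Rep (fun U => P U (mk U x)))
    {p : B} (hp : Forces p (fun U => ∃ y, P U y)) : ∃ u, Forces p (fun U => P U (mk U u)) := by
  obtain ⟨u, hu⟩ := Rep.witness h
  exact ⟨u, fun U hU => hu U (hp U hU)⟩

theorem Forces.refine_mem {q : B} (hq : q ≠ ⊥) {x : Name B} {ι : Type} {A : ι → Name B}
    {b : ι → B} (h : Forces q (fun U => mem U (mk U x) (mk U (Name.mk ι A b)))) :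
    ∃ i r, r ≠ ⊥ ∧ r ≤ q ∧ r ≤ b i ∧ Forces r (fun U => mk U x = mk U (A i)) := by
  have h1 : q ≤ ⨆ j, b j ⊓ beq x (A j) := le_of_ultra h
  obtain ⟨i, r, g1, g2, g3⟩ := exists_of_le_iSup hq h1
  exact ⟨i, r, g1, g2, g3.trans inf_le_left,
    fun U hU => mk_eq.mpr (U.mono (g3.trans inf_le_right) hU)⟩

theorem mem_mk_of {U : Ultra B} {ι : Type} {A : ι → Name B} {b : ι → B} (i : ι)
    (h : U.s (b i)) : mem U (mk U (A i)) (mk U (Name.mk ι A b)) :=
  U.mono (bv_le_bmem (Name.mk ι A b) i) h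

/-- Elimination rule for membership in an explicitly given name. -/
theorem of_mem_mk {ι : Type} {A : ι → Name B} {b : ι → B} {P : ∀ U : Ultra B, Mod U → Prop}
    (hP : ∀ x, Rep (fun U => P U (mk U x)))
    (H : ∀ i U, U.s (b i) → P U (mk U (A i))) (U : Ultra B) (y : Mod U)
    (hy : mem U y (mk U (Name.mk ι A b))) : P U y := by
  obtain ⟨x, rfl⟩ := mk_surj y
  refine Rep.imp_of_dense (Rep.mem x _) (hP x) (fun q hq h => ?_) U hy
  obtain ⟨i, r, g1, g2, g3, g4⟩ := h.refine_mem hq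
  refine ⟨r, g1, g2, fun V hV => ?_⟩
  show P V (mk V x)
  rw [g4 V hV]
  exact H i V (V.mono g3 hV)

end Pool.Agent.P.MP_54b694_lc
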