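import Mathlib
import Pool.Agent.P.MP_54b694_lc.ZFC

/-! Ordered pairs and cardinal comparisons in the quotient models. -/

namespace Pool.Agent.P.MP_54b694_lc

open Name Cardinal

theorem IsOPair.inj {M : Type 1} {E : M → M → Prop}
    (hpair : ∀ a b, ∃ c, ∀ x, E x c ↔ x = a ∨ x = b) {p a b a' b' : M}
    (h : IsOPair E p a b) (h' : IsOPair E p a' b') : a = a' ∧ b = b' := by
  have key : ∀ {a b a' b' : M}, IsOPair E p a b → IsOPair E p a' b' →
      a' = a ∧ (b = a' ∨ b = b') := by
    intro a b a' b' h h'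
    obtain ⟨s, hs⟩ := hpair a a
    obtain ⟨d, hd⟩ := hpair a b
    have h1 := (h' s).mp ((h s).mpr (Or.inl (fun y => by rw [hs, or_self])))
    have h2 := (h' d).mp ((h d).mpr (Or.inr hd))
    constructor
    · rcases h1 with h1 | h1
      · simpa using (hs a').mp ((h1 a').mpr rfl)
      · simpa using (hs a').mp ((h1 a').mpr (Or.inl rfl))
    · rcases h2 with h2 | h2
      · exact Or.inl ((h2 b).mp ((hd b).mpr (Or.inr rfl)))
      · exact (h2 b).mp ((hd b).mpr (Or.inr rfl))
  obtain ⟨h1, h2⟩ := key h h'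
  obtain ⟨-, h3⟩ := key h' h
  refine ⟨h1.symm, ?_⟩
  rcases h2 with h2 | h2
  · rcases h3 with h3 | h3
    · rw [h2, h3, h1]
    · exact h3.symm
  · exact h2

variable {B : Type} [CompleteBooleanAlgebra B]

theorem mod_pair (U : Ultra B) (a b : Mod U) : ∃ c, ∀ x, mem U x c ↔ x = a ∨ x = b := by
  obtain ⟨a, rfl⟩ := mk_surj a
  obtain ⟨b, rfl⟩ := mk_surj b
  exact ⟨_, mem_upair U a b⟩

/-- The Kuratowski pair. -/
def opair (a b : Name B) : Name B := upair (upair a a) (upair a b)

theorem isOPair_opair (U : Ultra B) (a b : Name B) :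
    IsOPair (mem U) (mk U (opair a b)) (mk U a) (mk U b) := by
  intro x
  rw [opair, mem_upair]
  constructor
  · rintro (rfl | rfl)
    · left; intro y; rw [mem_upair, or_self]
    · right; intro y; rw [mem_upair]
  · rintro (h | h)
    · left; exact mod_ext U _ _ (fun y => by rw [h, mem_upair, or_self])
    · right; exact mod_ext U _ _ (fun y => by rw [h, mem_upair])

theorem rep_opair (p a b : Name B) :
    Rep (fun U => IsOPair (mem U) (mk U p) (mk U a) (mk U b)) :=
  Rep.all (fun x => (Rep.mem x p).iff ((Rep.all (fun y => (Rep.mem y x).iff (Rep.eq y a))).or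
    (Rep.all (fun y => (Rep.mem y x).iff ((Rep.eq y a).or (Rep.eq y b))))))

theorem rep_rel (f a b : Name B) : Rep (fun U => Rel (mem U) (mk U f) (mk U a) (mk U b)) :=
  Rep.ex (fun p => (Rep.mem p f).and (rep_opair p a b))

theorem rep_inj (f A C : Name B) :
    Rep (fun U => IsInjection (mem U) (mk U f) (mk U A) (mk U C)) :=
  (Rep.all (fun p => (Rep.mem p f).imp (Rep.ex (fun a => Rep.ex (fun b =>
    (Rep.mem a A).and ((Rep.mem b C).and (rep_opair p a b))))))).and
  ((Rep.all (fun a => (Rep.mem a A).imp (Rep.ex (fun b => rep_rel f a b)))).and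
  ((Rep.all (fun a => Rep.all (fun b => Rep.all (fun b' =>
    (rep_rel f a b).imp ((rep_rel f a b').imp (Rep.eq b b')))))).and
  (Rep.all (fun a => Rep.all (fun a' => Rep.all (fun b =>
    (rep_rel f a b).imp ((rep_rel f a' b).imp (Rep.eq a a'))))))))

theorem rep_cardLE (A C : Name B) : Rep (fun U => CardLE (mem U) (mk U A) (mk U C)) :=
  Rep.ex (fun f => rep_inj f A C)

theorem rep_cardLT (A C : Name B) : Rep (fun U => CardLT (mem U) (mk U A) (mk U C)) :=
  (rep_cardLE A C).and (rep_cardLE C A).not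

theorem rep_countable (A : Name B) : Rep (fun U => IsCountable (mem U) (mk U A)) :=
  Rep.ex (fun w => (rep_inductive w).and ((Rep.all (fun w' => (rep_inductive w').imp
    (Rep.all (fun x => (Rep.mem x w).imp (Rep.mem x w'))))).and (rep_cardLE A w)))

theorem rel_mk_of {U : Ultra B} {ι : Type} {y z : ι → Name B} {b : ι → B} (i : ι)
    (h : U.s (b i)) :
    Rel (mem U) (mk U (Name.mk ι (fun i => opair (y i) (z i)) b)) (mk U (y i)) (mk U (z i)) :=
  ⟨_, mem_mk_of (A := fun i => opair (y i) (z i)) i h, isOPair_opair U _ _⟩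

theorem of_rel_mk {ι : Type} {y z : ι → Name B} {b : ι → B}
    {P : ∀ U : Ultra B, Mod U → Mod U → Prop}
    (hP : ∀ x x', Rep (fun U => P U (mk U x) (mk U x')))
    (H : ∀ i U, U.s (b i) → P U (mk U (y i)) (mk U (z i))) (U : Ultra B) (x x' : Mod U)
    (h : Rel (mem U) (mk U (Name.mk ι (fun i => opair (y i) (z i)) b)) x x') : P U x x' := by
  obtain ⟨p, h1, h2⟩ := h
  obtain ⟨x, rfl⟩ := mk_surj x
  obtain ⟨x', rfl⟩ := mk_surj x'
  refine of_mem_mk (P := fun U p => IsOPair (mem U) p (mk U x) (mk U x') → P U (mk U x) (mk U x'))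
    (fun p => (rep_opair p x x').imp (hP x x')) ?_ U p h1 h2
  intro i V g1 g2
  obtain ⟨e1, e2⟩ := IsOPair.inj (mod_pair V) g2 (isOPair_opair V _ _)
  rw [e1, e2]
  exact H i V g1

theorem IsInjection.mem_right {U : Ultra B} {f A C a b : Mod U} (h : IsInjection (mem U) f A C)
    (hr : Rel (mem U) f a b) : mem U b C := by
  obtain ⟨p, h1, h2⟩ := hr
  obtain ⟨a', b', -, g2, g3⟩ := h.1 p h1
  rwa [(IsOPair.inj (mod_pair U) h2 g3).2]

/-- Below `p`, every element of `Y` is locally one of the `y i`. -/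
def Covered (p : B) (Y : Name B) {I : Type} (y : I → Name B) : Prop :=
  ∀ u q, q ≠ ⊥ → q ≤ p → Forces q (fun U => mem U (mk U u) (mk U Y)) →
    ∃ i r, r ≠ ⊥ ∧ r ≤ q ∧ Forces r (fun U => mk U u = mk U (y i))

theorem covered_mk (p : B) {I : Type} (y : I → Name B) (b : I → B) :
    Covered p (Name.mk I y b) y := by
  intro u q hq _ h
  obtain ⟨i, r, h1, h2, -, h3⟩ := h.refine_mem hq
  exact ⟨i, r, h1, h2, h3⟩

theorem Covered.mono {p q : B} {Y : Name B} {I : Type} {y : I → Name B} (h : Covered p Y y)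
    (hq : q ≤ p) : Covered q Y y :=
  fun u r h1 h2 h3 => h u r h1 (h2.trans hq) h3

theorem Covered.subset {p : B} {Y Y' : Name B} {I : Type} {y : I → Name B} (h : Covered p Y y)
    (hs : Forces p (fun U => ∀ x, mem U x (mk U Y') → mem U x (mk U Y))) : Covered p Y' y :=
  fun u r h1 h2 h3 => h u r h1 h2 (fun U hU => hs U (U.mono h2 hU) _ (h3 U hU))

theorem forces_cardLE {I : Type} {p : B} {Y Z : Name B} {y z : I → Name B}
    (hcov : Covered p Y y) (hz : ∀ i, Forces p (fun U => mem U (mk U (z i)) (mk U Z)))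
    (hd : ∀ i j, Forces p (fun U => mk U (z i) = mk U (z j) → i = j)) :
    Forces p (fun U => CardLE (mem U) (mk U Y) (mk U Z)) := by
  let r : I → I → Prop := WellOrderingRel
  have wo : IsWellOrder I r := WellOrderingRel.isWellOrder
  let first : I → B := fun i => bmem (y i) Y ⊓ ⨅ j : {j // r j i}, (beq (y j) (y i))ᶜ
  let f : Name B := Name.mk I (fun i => opair (y i) (z i)) first
  have huniq : ∀ i j (V : Ultra B), V.s (first i) → V.s (first j) →
      mk V (y i) = mk V (y j) → i = j := by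
    have key : ∀ i j (V : Ultra B), r i j → V.s (first j) → mk V (y i) = mk V (y j) → False := by
      intro i j V hij g2 g3
      have k1 : V.s (beq (y i) (y j))ᶜ :=
        V.mono (inf_le_right.trans (iInf_le (fun k : {k // r k j} => (beq (y k) (y j))ᶜ) ⟨i, hij⟩))
          g2
      exact V.compl_iff.mp k1 (mk_eq.mp g3)
    intro i j V g1 g2 g3
    exact wo.trichotomous i j (fun h => key i j V h g2 g3) (fun h => key j i V h g1 g3.symm)
  intro U hU
  refine ⟨mk U f, ?_, ?_, ?_, ?_⟩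
  · intro t ht
    refine of_mem_mk (P := fun U t => U.s p →
        ∃ a b, mem U a (mk U Y) ∧ mem U b (mk U Z) ∧ IsOPair (mem U) t a b)
      (fun t => (Rep.of_s p).imp (Rep.ex (fun a => Rep.ex (fun b =>
        (Rep.mem a Y).and ((Rep.mem b Z).and (rep_opair t a b)))))) ?_ U t ht hU
    intro i V g1 g2
    exact ⟨mk V (y i), mk V (z i), V.mono inf_le_left g1, hz i V g2, isOPair_opair V _ _⟩
  · intro a ha
    obtain ⟨a, rfl⟩ := mk_surj a
    refine Rep.imp_of_dense (P := fun U => U.s p ∧ mem U (mk U a) (mk U Y))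
      (Q := fun U => ∃ b, Rel (mem U) (mk U f) (mk U a) b) ((Rep.of_s p).and (Rep.mem a Y))
      (Rep.ex (fun b => rep_rel f a b)) ?_ U ⟨hU, ha⟩
    intro q hq hF
    obtain ⟨i, s, g1, g2, g3⟩ := hcov a q hq (le_of_ultra (fun V hV => (hF V hV).1))
      (fun V hV => (hF V hV).2)
    have hne : {j | s ⊓ beq (y j) (y i) ≠ ⊥}.Nonempty := ⟨i, by simpa [beq_refl] using g1⟩
    obtain ⟨j, hj, hmin⟩ := wo.wf.has_min _ hne
    have k5 : s ⊓ beq (y j) (y i) ≤ ⨅ k : {k // r k j}, (beq (y k) (y j))ᶜ := by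
      refine le_iInf (fun k => le_compl_of (fun t ht t1 t2 => ?_))
      apply hmin k _ k.2
      intro h0
      apply ht
      exact le_bot_iff.mp ((le_inf (t1.trans inf_le_left)
        (le_beq_trans t2 (t1.trans inf_le_right))).trans h0.le)
    refine ⟨_, hj, inf_le_left.trans g2, fun V hV => ⟨mk V (z j), ?_⟩⟩
    have k1 := V.inf_iff.mp hV
    have k2 : mk V a = mk V (y j) := (g3 V k1.1).trans (mk_eq.mpr k1.2).symm
    have k3 := (hF V (V.mono g2 k1.1)).2
    rw [k2] at k3 ⊢
    exact rel_mk_of j (V.inf k3 (V.mono k5 hV))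
  · intro a b b' h1 h2
    obtain ⟨b', rfl⟩ := mk_surj b'
    refine of_rel_mk (P := fun V a b => Rel (mem V) (mk V f) a (mk V b') → b = mk V b')
      (fun a b => (rep_rel f a b').imp (Rep.eq b b')) ?_ U a b h1 h2
    intro i V g1 g2
    refine of_rel_mk (P := fun W a c => W.s (first i) → mk W (y i) = a → mk W (z i) = c)
      (fun a c => (Rep.of_s _).imp ((Rep.eq _ a).imp (Rep.eq _ c))) ?_ V _ _ g2 g1 rfl
    intro j W k1 k2 k3
    rw [huniq i j W k2 k1 k3]
  · intro a a' b h1 h2
    obtain ⟨a', rfl⟩ := mk_surj a'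
    refine of_rel_mk (P := fun V a b => V.s p → Rel (mem V) (mk V f) (mk V a') b → a = mk V a')
      (fun a b => (Rep.of_s p).imp ((rep_rel f a' b).imp (Rep.eq a a'))) ?_ U a b h1 hU h2
    intro i V _ g0 g2
    refine of_rel_mk (P := fun W a c => W.s p → mk W (z i) = c → mk W (y i) = a)
      (fun a c => (Rep.of_s _).imp ((Rep.eq _ c).imp (Rep.eq _ a))) ?_ V _ _ g2 g0 rfl
    intro j W _ k2 k3
    rw [hd i j W k2 k3]

/-- The countable chain condition. -/
def CCC (B : Type) [CompleteBooleanAlgebra B] : Prop :=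
  ∀ (T : Type) (r : T → B), (∀ t, r t ≠ ⊥) → (∀ s t, s ≠ t → r s ⊓ r t = ⊥) → Countable T

theorem forces_not_cardLE (hc : CCC B) {K I : Type} {p : B} {X Y : Name B} {x : K → Name B}
    {y : I → Name B} (hx : ∀ k, Forces p (fun U => mem U (mk U (x k)) (mk U X)))
    (hd : ∀ k l, Forces p (fun U => mk U (x k) = mk U (x l) → k = l))
    (hcov : Covered p Y y) (hI : #I < #K) (hK : ℵ₀ < #K) :
    Forces p (fun U => ¬ CardLE (mem U) (mk U X) (mk U Y)) := by
  rintro U hU ⟨f, hf⟩
  obtain ⟨f, rfl⟩ := mk_surj f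
  obtain ⟨q, hq, hqp, hF⟩ := (rep_inj f X Y).localize hf hU
  have h1 : ∀ k, ∃ i r, r ≠ ⊥ ∧ r ≤ q ∧
      Forces r (fun U => Rel (mem U) (mk U f) (mk U (x k)) (mk U (y i))) := by
    intro k
    obtain ⟨b, hb⟩ := Forces.ex (P := fun U b => Rel (mem U) (mk U f) (mk U (x k)) b)
      (fun b => rep_rel f _ b) (p := q) (fun V hV => (hF V hV).2.1 _ (hx k V (V.mono hqp hV)))
    obtain ⟨i, r, g1, g2, g3⟩ := hcov b q hq hqp (fun V hV => (hF V hV).mem_right (hb V hV))
    refine ⟨i, r, g1, g2, fun V hV => ?_⟩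
    have := hb V (V.mono g2 hV)
    beta_reduce at this
    rwa [g3 V hV] at this
  choose i r g1 g2 g3 using h1
  have h2 : ∀ j, Countable {k // i k = j} := by
    intro j
    refine hc _ (fun k => r k) (fun k => g1 k) (fun s t hst => ?_)
    by_contra hne
    obtain ⟨V, hV⟩ := exists_ultra hne
    have k1 := V.inf_iff.mp hV
    have k2 := g3 s V k1.1
    have k3 := g3 t V k1.2
    rw [s.2] at k2
    rw [t.2] at k3
    have k4 := V.mono (g2 s) k1.1
    exact hst (Subtype.ext (hd s t V (V.mono hqp k4) ((hF V k4).2.2.2 _ _ _ k2 k3)))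
  have h3 : #K ≤ #I * ℵ₀ := by
    rw [← Cardinal.mk_congr (Equiv.sigmaFiberEquiv i), Cardinal.mk_sigma]
    calc _ ≤ Cardinal.sum (fun _ : I => ℵ₀) :=
          Cardinal.sum_le_sum _ _ (fun j => Cardinal.mk_le_aleph0_iff.mpr (h2 j))
      _ = #I * ℵ₀ := Cardinal.sum_const' _ _
  exact absurd h3 (not_le.mpr (Cardinal.mul_lt_of_lt hK.le hI hK))

theorem covered_least_inductive {p : B} {w : Name B}
    (h : Forces p (fun U => ∀ w', IsInductive (mem U) w' → ∀ x, mem U x (mk U w) → mem U x w')) :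
    Covered p w natN :=
  (covered_mk p natN (fun _ => ⊤)).subset (fun U hU => h U hU _ (omega_inductive U))

theorem forces_countable {I : Type} [Countable I] {p : B} {Y : Name B} {y : I → Name B}
    (hcov : Covered p Y y) : Forces p (fun U => IsCountable (mem U) (mk U Y)) := by
  obtain ⟨e, he⟩ := Countable.exists_injective_nat I
  have := forces_cardLE (Z := omegaN) (z := fun i => natN (e i)) hcov
    (fun i U _ => natN_mem_omega U _) (fun i j U _ h => he (natN_inj U h))
  exact fun U hU => ⟨_, omega_inductive U, fun w' hw' => omega_least U w' hw', this U hU⟩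

/-- A countable set is covered by a sequence of names for elements of it (or of nothing). -/
theorem exists_cover_of_countable {p : B} {N : Name B}
    (h : Forces p (fun U => IsCountable (mem U) (mk U N))) :
    ∃ y : ℕ → Name B, Covered p N y := by
  obtain ⟨w, hw⟩ := Forces.ex (P := fun U w => IsInductive (mem U) w ∧
      (∀ w', IsInductive (mem U) w' → ∀ x, mem U x w → mem U x w') ∧ CardLE (mem U) (mk U N) w)
    (fun w => (rep_inductive w).and ((Rep.all (fun w' => (rep_inductive w').imp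
      (Rep.all (fun x => (Rep.mem x w).imp (Rep.mem x w'))))).and (rep_cardLE N w))) h
  obtain ⟨f, hf⟩ := Forces.ex (P := fun U f => IsInjection (mem U) f (mk U N) (mk U w))
    (fun f => rep_inj f N w) (fun U hU => (hw U hU).2.2)
  choose y hy using fun n : ℕ => Rep.witness
    (P := fun U a => Rel (mem U) (mk U f) a (mk U (natN n))) (fun a => rep_rel f a _)
  refine ⟨y, fun u q hq hqp hu => ?_⟩
  obtain ⟨b, hb⟩ := Forces.ex (P := fun U b => Rel (mem U) (mk U f) (mk U u) b)
    (fun b => rep_rel f _ b) (p := q) (fun V hV => (hf V (V.mono hqp hV)).2.1 _ (hu V hV))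
  obtain ⟨n, r, g1, g2, g3⟩ := covered_least_inductive (fun U hU => (hw U hU).2.1) b q hq hqp
    (fun V hV => (hf V (V.mono hqp hV)).mem_right (hb V hV))
  refine ⟨n, r, g1, g2, fun V hV => ?_⟩
  have k1 := hb V (V.mono g2 hV)
  beta_reduce at k1
  rw [g3 V hV] at k1
  exact (hf V (V.mono (g2.trans hqp) hV)).2.2.2 _ _ _ k1 (hy n V ⟨_, k1⟩)

end Pool.Agent.P.MP_54b694_lc
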