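import Mathlib
import Pool.Agent.P.MP_54b694_lc.Card

/-! The Cohen algebra: regular open subsets of a Cantor cube. -/

namespace Pool.Agent.P.MP_54b694_lc

open TopologicalSpace Cardinal

/-- What is used about the Cohen algebra: points, locality and literals. -/
structure Cohen (J B : Type) [CompleteBooleanAlgebra B] where
  mkCohen ::
  pt : (J → Bool) → B → Prop
  pt_inf : ∀ {f a b}, pt f a → pt f b → pt f (a ⊓ b)
  pt_mono : ∀ {f a b}, a ≤ b → pt f a → pt f b
  pt_bot : ∀ f, ¬ pt f ⊥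
  pt_top : ∀ f, pt f ⊤
  exists_pt : ∀ {b}, b ≠ ⊥ → ∃ f, pt f b
  loc : ∀ {f b}, pt f b → ∃ s : Finset J, ∀ f', (∀ j ∈ s, f' j = f j) → pt f' b
  lit : J → Bool → B
  pt_lit : ∀ f j v, pt f (lit j v) ↔ f j = v

/-- Regular open sets. -/
def RO (X : Type) [TopologicalSpace X] : Type := Heyting.Regular (Opens X)

noncomputable instance (X : Type) [TopologicalSpace X] : CompleteBooleanAlgebra (RO X) :=
  { (inferInstance : BooleanAlgebra (Heyting.Regular (Opens X))) with
    sSup := fun S => Heyting.Regular.toRegular (sSup (Heyting.Regular.val '' S))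
    sInf := fun S => Heyting.Regular.toRegular (sInf (Heyting.Regular.val '' S))
    isLUB_sSup := fun _ => Heyting.Regular.gi.isLUB_of_u_image (isLUB_sSup _)
    isGLB_sInf := fun _ => Heyting.Regular.gi.isGLB_of_u_image (isGLB_sInf _) }

theorem exists_cohen (J : Type) : Nonempty (Cohen J (RO (J → Bool))) := by
  let o : J → Bool → Opens (J → Bool) := fun j v =>
    ⟨(fun f : J → Bool => f j) ⁻¹' {v},
      (isOpen_discrete ({v} : Set Bool)).preimage (continuous_apply j)⟩
  have hc : ∀ j v, IsCompl (o j v) (o j (!v)) := by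
    intro j v
    constructor
    · rw [disjoint_iff]
      ext f
      cases v <;> simp [o]
    · rw [codisjoint_iff]
      ext f
      cases v <;> simp [o]
  have hreg : ∀ j v, Heyting.IsRegular (o j v) := fun j v => by
    rw [Heyting.IsRegular, (hc j v).compl_eq, (hc j v).symm.compl_eq]
  refine ⟨⟨fun f b => f ∈ (Heyting.Regular.val b : Opens (J → Bool)), fun h1 h2 => ⟨h1, h2⟩,
    fun h h1 => h h1, fun f h => h, fun f => trivial, ?_, ?_, fun j v => ⟨o j v, hreg j v⟩,
    fun f j v => Iff.rfl⟩⟩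
  · intro b hb
    by_contra hcon
    push Not at hcon
    apply hb
    apply Heyting.Regular.coe_injective
    ext f
    exact iff_of_false (hcon f) (fun h => h)
  · intro f b hf
    obtain ⟨I, u, h1, h2⟩ := isOpen_pi_iff.mp (Heyting.Regular.val b : Opens (J → Bool)).isOpen f hf
    exact ⟨I, fun f' h => h2 (fun j hj => by rw [h j hj]; exact (h1 j hj).2)⟩

theorem exists_max_pairwise {α : Type} (P : α → Prop) (R : α → α → Prop)
    (hR : ∀ a b, R a b → R b a) : ∃ A : Set α, (∀ a ∈ A, P a) ∧ A.Pairwise R ∧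
      ∀ x, P x → x ∈ A ∨ ∃ a ∈ A, ¬ R x a := by
  obtain ⟨A, hA⟩ := zorn_subset {A : Set α | (∀ a ∈ A, P a) ∧ A.Pairwise R} (by
    intro c hc hchain
    refine ⟨⋃₀ c, ⟨?_, ?_⟩, fun s hs => Set.subset_sUnion_of_mem hs⟩
    · rintro a ⟨s, hs, ha⟩
      exact (hc hs).1 a ha
    · exact (Set.pairwise_sUnion hchain.directedOn).mpr (fun s hs => (hc hs).2))
  refine ⟨A, hA.prop.1, hA.prop.2, fun x hx => ?_⟩
  by_contra hcon
  push Not at hcon
  apply hcon.1
  refine hA.mem_of_prop_insert ⟨?_, ?_⟩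
  · rintro a (rfl | ha)
    exacts [hx, hA.prop.1 a ha]
  · exact hA.prop.2.insert (fun a ha _ => ⟨hcon.2 a ha, hR _ _ (hcon.2 a ha)⟩)

theorem finite_of_incompatible {J : Type} (n : ℕ) : ∀ (T : Type) (s : T → Finset J)
    (f : T → J → Bool), (∀ t, (s t).card ≤ n) →
    (∀ t t', t ≠ t' → ∃ j ∈ s t, j ∈ s t' ∧ f t j ≠ f t' j) → Finite T := by
  classical
  induction n with
  | zero =>
    intro T s f h1 h2
    have : Subsingleton T := ⟨fun t t' => by
      by_contra hne
      obtain ⟨j, hj, -⟩ := h2 t t' hne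
      have := Finset.card_pos.mpr ⟨j, hj⟩
      have := h1 t
      omega⟩
    infer_instance
  | succ n ih =>
    intro T s f h1 h2
    rcases isEmpty_or_nonempty T with h | ⟨⟨t0⟩⟩
    · infer_instance
    have hfin : ∀ j, {t | j ∈ s t ∧ f t j ≠ f t0 j}.Finite := by
      intro j
      refine ih {t | j ∈ s t ∧ f t j ≠ f t0 j} (fun t => (s t).erase j) (fun t => f t) ?_ ?_
      · intro t
        have := h1 t
        rw [Finset.card_erase_of_mem t.2.1]
        omega
      · intro t t' hne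
        obtain ⟨i, g1, g2, g3⟩ := h2 t t' (fun h => hne (Subtype.ext h))
        have hij : i ≠ j := by
          rintro rfl
          have k1 := t.2.2
          have k2 := t'.2.2
          revert g3 k1 k2
          cases f t i <;> cases f t' i <;> cases f t0 i <;> simp
        exact ⟨i, Finset.mem_erase.mpr ⟨hij, g1⟩, Finset.mem_erase.mpr ⟨hij, g2⟩, g3⟩
    have : (Set.univ : Set T) ⊆ {t0} ∪ ⋃ j ∈ s t0, {t | j ∈ s t ∧ f t j ≠ f t0 j} := by
      intro t _
      by_cases h : t = t0
      · exact Or.inl h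
      · obtain ⟨j, g1, g2, g3⟩ := h2 t t0 h
        exact Or.inr (Set.mem_biUnion g2 ⟨g1, g3⟩)
    exact Set.finite_univ_iff.mp (((Set.finite_singleton t0).union
      ((s t0).finite_toSet.biUnion (fun j _ => hfin j))).subset this)

namespace Cohen

variable {J B : Type} [CompleteBooleanAlgebra B] (C : Cohen J B)

theorem ne_bot {f : J → Bool} {b : B} (h : C.pt f b) : b ≠ ⊥ := fun h' => C.pt_bot f (h' ▸ h)

theorem le_of_pt {a b : B} (h : ∀ f, C.pt f a → C.pt f b) : a ≤ b := by
  by_contra hc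
  obtain ⟨r, h1, h2, h3⟩ := exists_of_not_le hc
  obtain ⟨f, hf⟩ := C.exists_pt h1
  exact C.ne_bot (C.pt_inf (h f (C.pt_mono h2 hf)) (C.pt_mono h3 hf)) inf_compl_eq_bot

theorem pt_finset_inf {ι : Type} (s : Finset ι) (b : ι → B) (f : J → Bool) :
    C.pt f (s.inf b) ↔ ∀ i ∈ s, C.pt f (b i) := by
  classical
  refine ⟨fun h i hi => C.pt_mono (Finset.inf_le hi) h, fun h => ?_⟩
  induction s using Finset.induction_on with
  | empty => exact C.pt_top f
  | insert i s _ ih =>
    rw [Finset.inf_insert]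
    exact C.pt_inf (h i (Finset.mem_insert_self _ _))
      (ih (fun j hj => h j (Finset.mem_insert_of_mem hj)))

include C in
theorem ccc : CCC B := by
  classical
  intro T r h1 h2
  choose f hf using fun t => C.exists_pt (h1 t)
  choose s hs using fun t => C.loc (hf t)
  have hinc : ∀ t t', t ≠ t' → ∃ j ∈ s t, j ∈ s t' ∧ f t j ≠ f t' j := by
    intro t t' hne
    by_contra hcon
    push Not at hcon
    refine C.ne_bot (C.pt_inf (hs t (fun j => if j ∈ s t then f t j else f t' j) ?_)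
      (hs t' _ ?_)) (h2 t t' hne)
    · intro j hj; simp [hj]
    · intro j hj
      by_cases h : j ∈ s t
      · simp [h, hcon j h hj]
      · simp [h]
  have hfin : ∀ n, {t | (s t).card ≤ n}.Finite := fun n =>
    finite_of_incompatible n {t | (s t).card ≤ n} (fun t => s t) (fun t => f t) (fun t => t.2)
      (fun t t' hne => hinc t t' (fun h => hne (Subtype.ext h)))
  have : (Set.univ : Set T) ⊆ ⋃ n, {t | (s t).card ≤ n} :=
    fun t _ => Set.mem_iUnion.mpr ⟨(s t).card, (le_rfl : (s t).card ≤ (s t).card)⟩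
  exact Set.countable_univ_iff.mp
    ((Set.countable_iUnion (fun n => (hfin n).countable)).mono this)

open Classical in
/-- The basic condition coded by a domain and the set of coordinates where it is true. -/
noncomputable def cd (c : Finset J × Finset J) : B := c.1.inf (fun j => C.lit j (decide (j ∈ c.2)))

open Classical in
theorem pt_cd (c : Finset J × Finset J) (f : J → Bool) :
    C.pt f (C.cd c) ↔ ∀ j ∈ c.1, f j = decide (j ∈ c.2) := by
  simp only [cd, C.pt_finset_inf, C.pt_lit]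

theorem exists_presentation (b : B) : ∃ A : Set (Finset J × Finset J), A.Countable ∧
    (∀ c ∈ A, C.cd c ≤ b) ∧ ∀ q, q ≠ ⊥ → q ≤ b → ∃ c ∈ A, q ⊓ C.cd c ≠ ⊥ := by
  classical
  have hne : ∀ c, C.cd c ≠ ⊥ := fun c => C.ne_bot ((C.pt_cd c _).mpr (fun _ _ => rfl))
  obtain ⟨A, h1, h2, h3⟩ := exists_max_pairwise (fun c => C.cd c ≤ b)
    (fun c c' => C.cd c ⊓ C.cd c' = ⊥) (fun a b h => by rwa [inf_comm])
  refine ⟨A, C.ccc A (fun c => C.cd c) (fun c => hne c)
    (fun c c' h => h2 c.2 c'.2 (fun h' => h (Subtype.ext h'))), h1, fun q hq hqb => ?_⟩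
  obtain ⟨f, hf⟩ := C.exists_pt hq
  obtain ⟨s, hs⟩ := C.loc hf
  have hle : C.cd (s, s.filter (fun j => f j = true)) ≤ q := C.le_of_pt (fun g hg => hs g (by
    intro j hj
    rw [(C.pt_cd _ g).mp hg j hj]
    cases h : f j <;> simp [hj, h]))
  rcases h3 _ (hle.trans hqb) with h | ⟨c, hc, h⟩
  · exact ⟨_, h, by rw [inf_eq_right.mpr hle]; exact hne _⟩
  · exact ⟨c, hc, fun h' => h (le_bot_iff.mp ((inf_le_inf_right _ hle).trans h'.le))⟩

theorem exists_support (b : B) : ∃ S : Set J, S.Countable ∧ ∀ q, q ⊓ b ≠ ⊥ →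
    ∃ g, C.pt g q ∧ ∀ g', (∀ j ∈ S, g' j = g j) → C.pt g' b := by
  obtain ⟨A, h1, h2, h3⟩ := C.exists_presentation b
  refine ⟨⋃ c ∈ A, (c.1 : Set J), h1.biUnion (fun c _ => c.1.countable_toSet), fun q hq => ?_⟩
  obtain ⟨c, hc, h⟩ := h3 _ hq inf_le_right
  obtain ⟨g, hg⟩ := C.exists_pt h
  refine ⟨g, C.pt_mono (inf_le_left.trans inf_le_left) hg, fun g' hg' => ?_⟩
  refine C.pt_mono (h2 c hc) ((C.pt_cd c g').mpr (fun j hj => ?_))
  rw [hg' j (Set.mem_biUnion hc hj)]
  exact (C.pt_cd c g).mp (C.pt_mono inf_le_right hg) j hj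

include C in
theorem card_le {κ : Cardinal.{0}} (hκ : ℵ₀ ≤ κ) (hJ : #J ≤ κ) (hp : κ ^ ℵ₀ ≤ κ) : #B ≤ κ := by
  have hsurj : Function.Surjective (fun c : ℕ → Option (Finset J × Finset J) =>
      ⨆ n, Option.elim (c n) ⊥ C.cd) := by
    intro b
    obtain ⟨A, h1, h2, h3⟩ := C.exists_presentation b
    obtain ⟨c, hc⟩ := ((h1.image some).insert none).exists_eq_range (Set.insert_nonempty _ _)
    refine ⟨c, le_antisymm (iSup_le (fun n => ?_)) (le_of_dense (fun q hq hqb => ?_))⟩
    · have : c n ∈ insert none (some '' A) := by rw [hc]; exact ⟨n, rfl⟩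
      rcases this with h | ⟨a, ha, h⟩
      · rw [h]; exact bot_le
      · rw [← h]; exact h2 a ha
    · obtain ⟨a, ha, h⟩ := h3 q hq hqb
      have : some a ∈ Set.range c := by rw [← hc]; exact Or.inr ⟨a, ha, rfl⟩
      obtain ⟨n, hn⟩ := this
      exact ⟨_, h, inf_le_left, inf_le_right.trans (le_iSup_of_le n (by rw [hn]; exact le_rfl))⟩
  have hF : #(Finset J) ≤ κ := by
    rcases finite_or_infinite J with h | h
    · exact Cardinal.mk_le_aleph0.trans hκ
    · rw [Cardinal.mk_finset_of_infinite]; exact hJ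
  have hO : #(Option (Finset J × Finset J)) ≤ κ := by
    rw [Cardinal.mk_option, Cardinal.mk_prod, Cardinal.lift_id]
    exact Cardinal.add_le_of_le hκ (Cardinal.mul_le_of_le hκ hF hF) (Cardinal.one_le_aleph0.trans hκ)
  refine (Cardinal.mk_le_of_surjective hsurj).trans ?_
  rw [← Cardinal.power_def, Cardinal.mk_nat]
  exact (Cardinal.power_le_power_right hO).trans hp

end Cohen

end Pool.Agent.P.MP_54b694_lc
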