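import Mathlib

/-! The in-order of the binary tree: a countable dense linear order whose cuts are branches. -/

namespace Pool.Agent.P.MP_54b694_lc

/-- The in-order on finite binary strings. -/
def qlt : List Bool → List Bool → Prop
  | [], [] => False
  | [], b :: _ => b = true
  | a :: _, [] => a = false
  | a :: s, b :: t => (a = false ∧ b = true) ∨ (a = b ∧ qlt s t)

theorem qlt_irrefl : ∀ s, ¬ qlt s s
  | [] => fun h => h
  | a :: s => by
    have := qlt_irrefl s
    cases a <;> simp [qlt, this]

theorem qlt_trans : ∀ {s t u}, qlt s t → qlt t u → qlt s u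
  | [], [], _ => fun h => h.elim
  | [], b :: t, [] => by cases b <;> simp [qlt]
  | [], b :: t, c :: u => by cases b <;> cases c <;> simp [qlt]
  | a :: s, [], [] => fun _ h => h.elim
  | a :: s, [], c :: u => by cases a <;> cases c <;> simp [qlt]
  | a :: s, b :: t, [] => by cases a <;> cases b <;> simp [qlt]
  | a :: s, b :: t, c :: u => by
    have := @qlt_trans s t u
    cases a <;> cases b <;> cases c <;> simp [qlt] <;> exact this

theorem qlt_total : ∀ s t, qlt s t ∨ s = t ∨ qlt t s
  | [], [] => Or.inr (Or.inl rfl)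
  | [], b :: t => by cases b <;> simp [qlt]
  | a :: s, [] => by cases a <;> simp [qlt]
  | a :: s, b :: t => by
    have := qlt_total s t
    cases a <;> cases b <;> simp [qlt] <;> exact this

theorem qlt_append_true : ∀ s u, qlt s (s ++ true :: u)
  | [], _ => rfl
  | _ :: s, u => Or.inr ⟨rfl, qlt_append_true s u⟩

theorem qlt_append_false : ∀ s u, qlt (s ++ false :: u) s
  | [], _ => rfl
  | _ :: s, u => Or.inr ⟨rfl, qlt_append_false s u⟩

theorem qlt_dense : ∀ {a b}, qlt a b → ∃ t, qlt a t ∧ qlt t b
  | [], [] => fun h => h.elim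
  | [], b :: t => fun h => ⟨b :: (t ++ [false]), h, Or.inr ⟨rfl, qlt_append_false _ _⟩⟩
  | a :: s, [] => fun h => ⟨a :: (s ++ [true]), Or.inr ⟨rfl, qlt_append_true _ _⟩, h⟩
  | a :: s, b :: t => by
    rintro (h | ⟨rfl, h⟩)
    · exact ⟨a :: (s ++ [true]), Or.inr ⟨rfl, qlt_append_true _ _⟩, Or.inl h⟩
    · obtain ⟨u, h1, h2⟩ := qlt_dense h
      exact ⟨a :: u, Or.inr ⟨rfl, h1⟩, Or.inr ⟨rfl, h2⟩⟩

/-- The node `s` lies to the left of the branch `x`. -/
def below : List Bool → (ℕ → Bool) → Prop
  | [], x => x 0 = true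
  | a :: s, x => (a = false ∧ x 0 = true) ∨ (a = x 0 ∧ below s (fun n => x (n + 1)))

/-- The first `n` bits of a branch. -/
def pre : (ℕ → Bool) → ℕ → List Bool
  | _, 0 => []
  | x, n + 1 => x 0 :: pre (fun n => x (n + 1)) n

theorem length_pre : ∀ (x : ℕ → Bool) (n : ℕ), (pre x n).length = n
  | _, 0 => rfl
  | x, n + 1 => by simp [pre, length_pre]

theorem pre_congr : ∀ (n : ℕ) {x y : ℕ → Bool}, (∀ i < n, x i = y i) → pre x n = pre y n
  | 0, _, _, _ => rfl
  | n + 1, x, y, h => by
    rw [pre, pre, h 0 (Nat.succ_pos n), pre_congr n (fun i hi => h (i + 1) (by omega))]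

theorem below_congr : ∀ (s : List Bool) {x y : ℕ → Bool}, (∀ i ≤ s.length, x i = y i) →
    below s x → below s y
  | [], x, y, h => by rw [below, below, h 0 le_rfl]; exact id
  | a :: s, x, y, h => by
    rw [below, below, h 0 (Nat.zero_le _)]
    rintro (h1 | h1)
    · exact Or.inl h1
    · exact Or.inr ⟨h1.1, below_congr s (fun i hi => h (i + 1) (by simp; omega)) h1.2⟩

theorem below_of_qlt : ∀ {s t : List Bool} {x : ℕ → Bool}, qlt s t → below t x → below s x
  | [], [], _ => fun h => h.elim
  | [], b :: t, x => by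
    simp only [qlt, below]
    rintro rfl (h | h)
    · exact h.2
    · exact h.1.symm
  | a :: s, [], x => by
    simp only [qlt, below]
    intro h1 h2
    exact Or.inl ⟨h1, h2⟩
  | a :: s, b :: t, x => by
    simp only [qlt, below]
    rintro (⟨h1, h2⟩ | ⟨rfl, h2⟩) (⟨h3, h4⟩ | ⟨h3, h4⟩)
    · exact Or.inl ⟨h1, h4⟩
    · exact Or.inl ⟨h1, h3 ▸ h2⟩
    · exact Or.inl ⟨h3, h4⟩
    · exact Or.inr ⟨h3, below_of_qlt h2 h4⟩

theorem below_pre : ∀ (n : ℕ) (x : ℕ → Bool), below (pre x n) x ↔ x n = true
  | 0, _ => Iff.rfl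
  | n + 1, x => by
    have := below_pre n (fun n => x (n + 1))
    simp only [pre, below, this]
    cases x 0 <;> simp

theorem qlt_pre : ∀ (s : List Bool) (n : ℕ) (x : ℕ → Bool), s.length < n → below s x →
    qlt s (pre x n)
  | _, 0, _, h => by omega
  | [], n + 1, x, _ => id
  | a :: s, n + 1, x, h => by
    simp only [pre, below, qlt]
    rintro (h1 | h1)
    · exact Or.inl h1
    · exact Or.inr ⟨h1.1, qlt_pre s n _ (by simpa using h) h1.2⟩

/-- The branch `b 0 1 1 1 …`, whose cut is the set of nodes to the left of `b`. -/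
def ext : List Bool → ℕ → Bool
  | [], 0 => false
  | [], _ + 1 => true
  | c :: _, 0 => c
  | _ :: b, n + 1 => ext b n

theorem below_true : ∀ s : List Bool, below s (fun _ => true)
  | [] => rfl
  | a :: s => by
    have := below_true s
    cases a <;> simp [below, this]

theorem below_ext : ∀ s b : List Bool, below s (ext b) ↔ qlt s b
  | [], [] => by simp [below, ext, qlt]
  | a :: s, [] => by simp [below, ext, qlt, below_true]
  | [], c :: b => by simp [below, ext, qlt]
  | a :: s, c :: b => by
    have := below_ext s b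
    simp only [below, ext, qlt, this]

theorem exists_cone {a b : List Bool} (h : qlt a b) : ∃ (y : ℕ → Bool) (n : ℕ),
    ∀ x : ℕ → Bool, (∀ i < n, x i = y i) → below a x ∧ ¬ below b x := by
  refine ⟨ext b, a.length + b.length + 1, fun x hx => ⟨?_, fun hb => ?_⟩⟩
  · exact below_congr a (fun i hi => (hx i (by omega)).symm) ((below_ext a b).mpr h)
  · exact qlt_irrefl b ((below_ext b b).mp (below_congr b (fun i hi => hx i (by omega)) hb))

theorem agree_of_between : ∀ (n : ℕ) (y x : ℕ → Bool), below (pre y n ++ [false]) x →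
    ¬ below (pre y n ++ [true]) x → ∀ i < n, x i = y i
  | 0, _, _, _, _, i, hi => by omega
  | n + 1, y, x, h1, h2, i, hi => by
    simp only [pre, List.cons_append, below, not_or, not_and] at h1 h2
    have h0 : y 0 = x 0 := by
      rcases h1 with h1 | h1
      · exact absurd h1.2 (h2.1 h1.1)
      · exact h1.1
    rcases i with _ | i
    · exact h0.symm
    · rcases h1 with h1 | h1
      · exact absurd h1.2 (h2.1 h1.1)
      · exact agree_of_between n (fun n => y (n + 1)) (fun n => x (n + 1)) h1.2 (h2.2 h0) i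
          (by omega)

theorem exists_sep_node {x y : ℕ → Bool} {m : ℕ} (h : x m ≠ y m) :
    ∃ s : List Bool, s.length ≤ m ∧ ¬ (below s x ↔ below s y) := by
  classical
  have hex : ∃ m, x m ≠ y m := ⟨m, h⟩
  have h1 := Nat.find_spec hex
  have h2 : pre x (Nat.find hex) = pre y (Nat.find hex) :=
    pre_congr _ (fun i hi => not_not.mp (Nat.find_min hex hi))
  refine ⟨pre x (Nat.find hex), by rw [length_pre]; exact Nat.find_min' hex h, ?_⟩
  rw [below_pre, h2, below_pre]
  revert h1
  cases x (Nat.find hex) <;> cases y (Nat.find hex) <;> simp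

end Pool.Agent.P.MP_54b694_lc
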