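import Mathlib
import Pool.Agent.P.MP_54b694_lc.Card
import Pool.Agent.P.MP_54b694_lc.Order

/-! The real line of the quotient models, as Dedekind cuts of the tree order. -/

namespace Pool.Agent.P.MP_54b694_lc

open Name

variable {B : Type} [CompleteBooleanAlgebra B]

/-- The name of a node. -/
def qN (s : List Bool) : Name B := natN (Encodable.encode s)

/-- The name of the set of nodes with Boolean characteristic function `τ`. -/
def realN (τ : List Bool → B) : Name B := Name.mk (List Bool) qN τ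

theorem mem_realN (U : Ultra B) (s : List Bool) (τ : List Bool → B) :
    mem U (mk U (qN s)) (mk U (realN τ)) ↔ U.s (τ s) := by
  refine ⟨fun h => ?_, fun h => mem_mk_of (A := qN) s h⟩
  refine of_mem_mk (P := fun U y => y = mk U (qN s) → U.s (τ s))
    (fun y => (Rep.eq y _).imp (Rep.of_s _)) ?_ U _ h rfl
  intro t V h1 h2
  rwa [← Encodable.encode_injective (natN_inj V h2)]

theorem le_of_beq_realN {Γ : B} {τ σ : List Bool → B} (h : Γ ≤ beq (realN τ) (realN σ))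
    {s : List Bool} (h1 : Γ ≤ τ s) : Γ ≤ σ s := by
  refine le_of_ultra (fun U hU => ?_)
  rw [← mem_realN, ← mk_eq.mpr (U.mono h hU), mem_realN]
  exact U.mono h1 hU

theorem le_beq_realN {Γ : B} {τ σ : List Bool → B} (h1 : ∀ s Γ', Γ' ≤ Γ → Γ' ≤ τ s → Γ' ≤ σ s)
    (h2 : ∀ s Γ', Γ' ≤ Γ → Γ' ≤ σ s → Γ' ≤ τ s) : Γ ≤ beq (realN τ) (realN σ) :=
  le_beq_of_ext (fun s Γ' g h => le_bmem_mk (A := qN) s (h1 s Γ' g h) (le_beq_refl _ _))
    (fun s Γ' g h => le_bmem_mk (A := qN) s (h2 s Γ' g h) (le_beq_refl _ _))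

/-- The value of: `τ` is a Dedekind cut without largest element. -/
def cut (τ : List Bool → B) : B :=
  (⨆ s, τ s) ⊓ (⨆ s, (τ s)ᶜ) ⊓ (⨅ s, ⨅ t, ⨅ (_ : qlt s t), τ t ⇨ τ s) ⊓
    (⨅ s, τ s ⇨ ⨆ t, ⨆ (_ : qlt s t), τ t)

/-- The value of: some node lies in `σ` and not in `τ`. -/
def ltv (τ σ : List Bool → B) : B := ⨆ s, σ s ⊓ (τ s)ᶜ

section cutlemmas

variable {Γ : B} {τ σ ρ : List Bool → B}

theorem cut_ne (h : Γ ≤ cut τ) (hΓ : Γ ≠ ⊥) : ∃ s r, r ≠ ⊥ ∧ r ≤ Γ ∧ r ≤ τ s :=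
  exists_of_le_iSup hΓ (h.trans (inf_le_left.trans (inf_le_left.trans inf_le_left)))

theorem cut_proper (h : Γ ≤ cut τ) (hΓ : Γ ≠ ⊥) : ∃ s r, r ≠ ⊥ ∧ r ≤ Γ ∧ r ≤ (τ s)ᶜ :=
  exists_of_le_iSup (f := fun s => (τ s)ᶜ) hΓ
    (h.trans (inf_le_left.trans (inf_le_left.trans inf_le_right)))

theorem cut_down (h : Γ ≤ cut τ) {s t : List Bool} (hst : qlt s t) (ht : Γ ≤ τ t) : Γ ≤ τ s := by
  have h1 := h.trans (inf_le_left.trans inf_le_right)
  simp only [le_iInf_iff] at h1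
  exact imp_elim (h1 s t hst) ht

theorem cut_nomax (h : Γ ≤ cut τ) (hΓ : Γ ≠ ⊥) {s : List Bool} (hs : Γ ≤ τ s) :
    ∃ t r, qlt s t ∧ r ≠ ⊥ ∧ r ≤ Γ ∧ r ≤ τ t := by
  have h1 := h.trans inf_le_right
  simp only [le_iInf_iff] at h1
  obtain ⟨t, r, g1, g2, g3⟩ := exists_of_le_iSup hΓ (imp_elim (h1 s) hs)
  obtain ⟨ht, r', k1, k2, k3⟩ := exists_of_le_iSup g1 g3
  exact ⟨t, r', ht, k1, k2.trans g2, k3⟩

theorem le_cut (h1 : ∀ q, q ≠ ⊥ → q ≤ Γ → ∃ s r, r ≠ ⊥ ∧ r ≤ q ∧ r ≤ τ s)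
    (h2 : ∀ q, q ≠ ⊥ → q ≤ Γ → ∃ s r, r ≠ ⊥ ∧ r ≤ q ∧ r ≤ (τ s)ᶜ)
    (h3 : ∀ s t q, qlt s t → q ≤ Γ → q ≤ τ t → q ≤ τ s)
    (h4 : ∀ s q, q ≠ ⊥ → q ≤ Γ → q ≤ τ s → ∃ t r, qlt s t ∧ r ≠ ⊥ ∧ r ≤ q ∧ r ≤ τ t) :
    Γ ≤ cut τ := by
  refine le_inf (le_inf (le_inf (le_of_dense ?_) (le_of_dense ?_)) ?_) ?_
  · intro q hq g
    obtain ⟨s, r, k1, k2, k3⟩ := h1 q hq g
    exact ⟨r, k1, k2, le_iSup_of_le s k3⟩
  · intro q hq g
    obtain ⟨s, r, k1, k2, k3⟩ := h2 q hq g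
    exact ⟨r, k1, k2, le_iSup_of_le (f := fun s => (τ s)ᶜ) s k3⟩
  · exact le_iInf (fun s => le_iInf (fun t => le_iInf (fun hst =>
      le_imp (fun q g k => h3 s t q hst g k))))
  · refine le_iInf (fun s => le_imp (fun q g k => le_of_dense (fun q' hq' g' => ?_)))
    obtain ⟨t, r, k0, k1, k2, k3⟩ := h4 s q' hq' (g'.trans g) (g'.trans k)
    exact ⟨r, k1, k2, le_iSup_of_le t (le_iSup_of_le k0 k3)⟩

theorem cut_lt (h : Γ ≤ cut τ) (hΓ : Γ ≠ ⊥) {s t : List Bool} (hs : Γ ≤ τ s) (ht : Γ ≤ (τ t)ᶜ) :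
    qlt s t := by
  rcases qlt_total s t with h1 | rfl | h1
  · exact h1
  · exact (false_of_le_compl hΓ hs ht).elim
  · exact (false_of_le_compl hΓ (cut_down h h1 hs) ht).elim

theorem le_compl_of_beq (h : Γ ≤ beq (realN τ) (realN σ)) {s : List Bool} (h1 : Γ ≤ (τ s)ᶜ) :
    Γ ≤ (σ s)ᶜ :=
  le_compl_of (fun _ hq g k => false_of_le_compl hq
    (le_of_beq_realN (le_beq_symm (g.trans h)) k) (g.trans h1))

theorem cut_congr (h : Γ ≤ beq (realN τ) (realN σ)) (hc : Γ ≤ cut τ) : Γ ≤ cut σ := by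
  apply le_cut
  · intro q hq g
    obtain ⟨s, r, k1, k2, k3⟩ := cut_ne (g.trans hc) hq
    exact ⟨s, r, k1, k2, le_of_beq_realN ((k2.trans g).trans h) k3⟩
  · intro q hq g
    obtain ⟨s, r, k1, k2, k3⟩ := cut_proper (g.trans hc) hq
    exact ⟨s, r, k1, k2, le_compl_of_beq ((k2.trans g).trans h) k3⟩
  · intro s t q hst g k
    exact le_of_beq_realN (g.trans h) (cut_down (g.trans hc) hst
      (le_of_beq_realN (le_beq_symm (g.trans h)) k))
  · intro s q hq g k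
    obtain ⟨t, r, k0, k1, k2, k3⟩ := cut_nomax (g.trans hc) hq
      (le_of_beq_realN (le_beq_symm (g.trans h)) k)
    exact ⟨t, r, k0, k1, k2, le_of_beq_realN ((k2.trans g).trans h) k3⟩

theorem le_ltv (s : List Bool) (h1 : Γ ≤ σ s) (h2 : Γ ≤ (τ s)ᶜ) : Γ ≤ ltv τ σ :=
  le_iSup_of_le (f := fun s => σ s ⊓ (τ s)ᶜ) s (le_inf h1 h2)

theorem ltv_cases {c : B} (h : Γ ≤ ltv τ σ)
    (H : ∀ s q, q ≤ Γ → q ≤ σ s → q ≤ (τ s)ᶜ → q ≤ c) : Γ ≤ c :=
  le_of_cases h (fun s q g k => H s q g (k.trans inf_le_left) (k.trans inf_le_right))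

theorem ltv_trans (hc : Γ ≤ cut σ) (hc' : Γ ≤ cut ρ) (h1 : Γ ≤ ltv τ σ) (h2 : Γ ≤ ltv σ ρ) :
    Γ ≤ ltv τ ρ := by
  refine ltv_cases h1 (fun s q g1 k1 k2 => ltv_cases (g1.trans h2) (fun t r g2 k3 k4 => ?_))
  by_cases hr : r = ⊥
  · rw [hr]; exact bot_le
  have := cut_lt ((g2.trans g1).trans hc) hr (g2.trans k1) k4
  exact le_ltv s (cut_down ((g2.trans g1).trans hc') this k3) (g2.trans k2)

end cutlemmas

/-- The name of the real line. -/
def RN : Name B := Name.mk (List Bool → B) realN cut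

/-- The name of its order. -/
def LN : Name B := Name.mk ((List Bool → B) × (List Bool → B))
  (fun p => opair (realN p.1) (realN p.2)) (fun p => ltv p.1 p.2)

theorem realN_mem {U : Ultra B} {τ : List Bool → B} :
    mem U (mk U (realN τ)) (mk U RN) ↔ U.s (cut τ) := by
  refine ⟨fun h => ?_, fun h => mem_mk_of (A := realN) τ h⟩
  refine of_mem_mk (P := fun U y => y = mk U (realN τ) → U.s (cut τ))
    (fun y => (Rep.eq y _).imp (Rep.of_s _)) ?_ U _ h rfl
  intro σ V h1 h2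
  exact V.mono (cut_congr inf_le_left inf_le_right) (V.inf (mk_eq.mp h2) h1)

theorem exists_realN {U : Ultra B} {y : Mod U} (h : mem U y (mk U RN)) :
    ∃ τ, y = mk U (realN τ) ∧ U.s (cut τ) := by
  obtain ⟨x, rfl⟩ := mk_surj y
  have h1 : mk U x = mk U (realN (fun s => bmem (qN s) x)) := by
    refine of_mem_mk (P := fun U y => y = mk U x → y = mk U (realN (fun s => bmem (qN s) x)))
      (fun y => (Rep.eq y _).imp (Rep.eq y _)) ?_ U _ h rfl
    intro σ V _ h2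
    refine mk_eq.mpr (V.mono (le_beq_realN ?_ ?_) (mk_eq.mp h2))
    · intro s q g k
      exact le_bmem_right g (le_bmem_mk (A := qN) s k (le_beq_refl _ _))
    · intro s q g k
      exact le_of_ultra (fun W hW => (mem_realN W s σ).mp
        (W.mono (le_bmem_right (le_beq_symm g) k) hW))
  exact ⟨_, h1, realN_mem.mp (h1 ▸ h)⟩

theorem rel_LN {U : Ultra B} {τ σ : List Bool → B} :
    Rel (mem U) (mk U LN) (mk U (realN τ)) (mk U (realN σ)) ↔ U.s (ltv τ σ) := by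
  refine ⟨fun h => ?_, fun h => rel_mk_of (y := fun p : (List Bool → B) × (List Bool → B) =>
    realN p.1) (z := fun p => realN p.2) (τ, σ) h⟩
  refine of_rel_mk (y := fun p : (List Bool → B) × (List Bool → B) => realN p.1)
    (z := fun p => realN p.2)
    (P := fun U x y => x = mk U (realN τ) → y = mk U (realN σ) → U.s (ltv τ σ))
    (fun x y => (Rep.eq x _).imp ((Rep.eq y _).imp (Rep.of_s _))) ?_ U _ _ h rfl rfl
  rintro ⟨τ', σ'⟩ V h1 h2 h3
  refine V.mono ?_ (V.inf (V.inf (mk_eq.mp h2) (mk_eq.mp h3)) h1)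
  refine ltv_cases inf_le_right (fun s q g k1 k2 => le_ltv s ?_ ?_)
  · exact le_of_beq_realN (g.trans (inf_le_left.trans inf_le_right)) k1
  · exact le_compl_of_beq (g.trans (inf_le_left.trans inf_le_left)) k2

/-- The cut of a node. -/
def ratc (t : List Bool) : List Bool → B := fun s => ⨆ (_ : qlt s t), ⊤

theorem ratc_of {s t : List Bool} (h : qlt s t) : (ratc t s : B) = ⊤ := by simp [ratc, h]

theorem ratc_of_not {s t : List Bool} (h : ¬ qlt s t) : (ratc t s : B) = ⊥ := by simp [ratc, h]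

theorem qlt_of_le_ratc {Γ : B} (hΓ : Γ ≠ ⊥) {s t : List Bool} (h : Γ ≤ ratc t s) : qlt s t := by
  by_contra hc
  rw [ratc_of_not hc] at h
  exact hΓ (le_bot_iff.mp h)

theorem cut_ratc (Γ : B) (t : List Bool) : Γ ≤ cut (ratc t) := by
  apply le_cut
  · intro q hq _
    exact ⟨t ++ [false], q, hq, le_rfl, by rw [ratc_of (qlt_append_false _ _)]; exact le_top⟩
  · intro q hq _
    exact ⟨t, q, hq, le_rfl, by rw [ratc_of_not (qlt_irrefl _)]; simp⟩
  · intro s u q hsu _ k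
    by_cases hq : q = ⊥
    · rw [hq]; exact bot_le
    rw [ratc_of (qlt_trans hsu (qlt_of_le_ratc hq k))]; exact le_top
  · intro s q hq _ k
    obtain ⟨u, h1, h2⟩ := qlt_dense (qlt_of_le_ratc hq k)
    exact ⟨u, q, h1, hq, le_rfl, by rw [ratc_of h2]; exact le_top⟩

theorem ltv_ratc_left {Γ : B} {σ : List Bool → B} {t : List Bool} (h : Γ ≤ σ t) :
    Γ ≤ ltv (ratc t) σ :=
  le_ltv t h (by rw [ratc_of_not (qlt_irrefl _)]; simp)

theorem ltv_ratc_right {Γ : B} {τ : List Bool → B} {s t : List Bool} (hst : qlt s t)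
    (h : Γ ≤ (τ s)ᶜ) : Γ ≤ ltv τ (ratc t) :=
  le_ltv s (by rw [ratc_of hst]; exact le_top) h

theorem ltv_ratc_ratc (Γ : B) {s t : List Bool} (hst : qlt s t) : Γ ≤ ltv (ratc s) (ratc t) :=
  ltv_ratc_left (by rw [ratc_of hst]; exact le_top)

theorem le_of_ltv_ratc_left {Γ : B} {σ : List Bool → B} {t : List Bool} (hc : Γ ≤ cut σ)
    (h : Γ ≤ ltv (ratc t) σ) : Γ ≤ σ t := by
  refine ltv_cases h (fun s q g k1 k2 => ?_)
  rcases qlt_total s t with h1 | rfl | h1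
  · rw [ratc_of h1, compl_top] at k2
    exact k2.trans bot_le
  · exact k1
  · exact cut_down (g.trans hc) h1 k1

theorem le_of_ltv_ratc_right {Γ : B} {τ : List Bool → B} {t : List Bool} (hc : Γ ≤ cut τ)
    (h : Γ ≤ ltv τ (ratc t)) : Γ ≤ (τ t)ᶜ := by
  refine ltv_cases h (fun s q g k1 k2 => le_compl_of (fun r hr g' k3 => ?_))
  exact false_of_le_compl hr (cut_down ((g'.trans g).trans hc) (qlt_of_le_ratc hr (g'.trans k1)) k3)
    (g'.trans k2)

theorem dense_rat {q : B} {τ σ : List Bool → B} (hq : q ≠ ⊥) (hc : q ≤ cut σ)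
    (h : q ≤ ltv τ σ) :
    ∃ t r, r ≠ ⊥ ∧ r ≤ q ∧ r ≤ ltv τ (ratc t) ∧ r ≤ ltv (ratc t) σ := by
  obtain ⟨s, r, g1, g2, g3⟩ := exists_of_le_iSup hq h
  obtain ⟨t, r', k0, k1, k2, k3⟩ := cut_nomax (g2.trans hc) g1 (g3.trans inf_le_left)
  exact ⟨t, r', k1, k2.trans g2, ltv_ratc_right k0 (k2.trans (g3.trans inf_le_right)),
    ltv_ratc_left k3⟩

theorem qlt_of_ltv {q : B} (hq : q ≠ ⊥) {s t : List Bool} (h : q ≤ ltv (ratc s) (ratc t)) :
    qlt s t :=
  qlt_of_le_ratc hq (le_of_ltv_ratc_left (cut_ratc _ _) h)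

theorem mod_lt_trans (U : Ultra B) (x y z : Mod U) (hx : mem U x (mk U RN))
    (hy : mem U y (mk U RN)) (hz : mem U z (mk U RN)) (h1 : Rel (mem U) (mk U LN) x y)
    (h2 : Rel (mem U) (mk U LN) y z) : Rel (mem U) (mk U LN) x z := by
  obtain ⟨τ, rfl, -⟩ := exists_realN hx
  obtain ⟨σ, rfl, c2⟩ := exists_realN hy
  obtain ⟨ρ, rfl, c3⟩ := exists_realN hz
  rw [rel_LN] at h1 h2 ⊢
  exact U.mono (ltv_trans (inf_le_left.trans inf_le_left) (inf_le_left.trans inf_le_right)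
    (inf_le_right.trans inf_le_left) (inf_le_right.trans inf_le_right))
    (U.inf (U.inf c2 c3) (U.inf h1 h2))

theorem mod_lt_irrefl (U : Ultra B) (x : Mod U) (hx : mem U x (mk U RN)) :
    ¬ Rel (mem U) (mk U LN) x x := by
  obtain ⟨τ, rfl, -⟩ := exists_realN hx
  rw [rel_LN]
  simpa [ltv] using U.bot

theorem isRealLine (U : Ultra B) : IsRealLine (mem U) (mk U RN) (mk U LN) := by
  have hrat : ∀ (V : Ultra B) t, mem V (mk V (realN (ratc t))) (mk V RN) :=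
    fun V t => realN_mem.mpr (V.mono (cut_ratc _ _) V.top)
  refine ⟨⟨_, hrat U []⟩, mod_lt_irrefl U, mod_lt_trans U, ?_, ?_, ?_, ?_⟩
  · intro x y hx hy
    obtain ⟨τ, rfl, -⟩ := exists_realN hx
    obtain ⟨σ, rfl, -⟩ := exists_realN hy
    rw [rel_LN, rel_LN, mk_eq]
    by_contra hc
    push Not at hc
    apply hc.2.1
    refine U.mono (le_beq_realN ?_ ?_) (U.inf (U.compl_iff.mpr hc.1) (U.compl_iff.mpr hc.2.2))
    · intro s q g k
      by_contra h
      obtain ⟨r, k1, k2, k3⟩ := exists_of_not_le h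
      exact false_of_le_compl k1 (le_ltv s (k2.trans k) k3) (k2.trans (g.trans inf_le_right))
    · intro s q g k
      by_contra h
      obtain ⟨r, k1, k2, k3⟩ := exists_of_not_le h
      exact false_of_le_compl k1 (le_ltv s (k2.trans k) k3) (k2.trans (g.trans inf_le_left))
  · intro x hx
    obtain ⟨τ, rfl, hc⟩ := exists_realN hx
    constructor
    · refine Rep.imp_of_dense (P := fun U => U.s (cut τ))
        (Q := fun U => ∃ y, mem U y (mk U RN) ∧ Rel (mem U) (mk U LN) (mk U (realN τ)) y)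
        (Rep.of_s _) (Rep.ex (fun y => (Rep.mem y _).and (rep_rel _ _ y))) ?_ U hc
      intro q hq hF
      obtain ⟨s, r, k1, k2, k3⟩ := cut_proper hF.le hq
      exact ⟨r, k1, k2, fun V hV => ⟨_, hrat V (s ++ [true]),
        rel_LN.mpr (V.mono (ltv_ratc_right (qlt_append_true _ _) k3) hV)⟩⟩
    · refine Rep.imp_of_dense (P := fun U => U.s (cut τ))
        (Q := fun U => ∃ y, mem U y (mk U RN) ∧ Rel (mem U) (mk U LN) y (mk U (realN τ)))
        (Rep.of_s _) (Rep.ex (fun y => (Rep.mem y _).and (rep_rel _ y _))) ?_ U hc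
      intro q hq hF
      obtain ⟨s, r, k1, k2, k3⟩ := cut_ne hF.le hq
      exact ⟨r, k1, k2, fun V hV => ⟨_, hrat V s, rel_LN.mpr (V.mono (ltv_ratc_left k3) hV)⟩⟩
  · let D : Name B := Name.mk (List Bool) (fun t => realN (ratc t)) (fun _ => ⊤)
    refine ⟨mk U D, forces_countable (covered_mk ⊤ _ _) U U.top, ?_, ?_⟩
    · exact of_mem_mk (P := fun U d => mem U d (mk U RN)) (fun d => Rep.mem d _)
        (fun t V _ => hrat V t) U
    · intro x y hx hy hxy
      obtain ⟨τ, rfl, -⟩ := exists_realN hx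
      obtain ⟨σ, rfl, hc⟩ := exists_realN hy
      refine Rep.imp_of_dense (P := fun U => U.s (cut σ ⊓ ltv τ σ))
        (Q := fun U => ∃ d, mem U d (mk U D) ∧ Rel (mem U) (mk U LN) (mk U (realN τ)) d ∧
          Rel (mem U) (mk U LN) d (mk U (realN σ)))
        (Rep.of_s _) (Rep.ex (fun d => (Rep.mem d _).and ((rep_rel _ _ d).and (rep_rel _ d _))))
        ?_ U (U.inf hc (rel_LN.mp hxy))
      intro q hq hF
      obtain ⟨t, r, k1, k2, k3, k4⟩ := dense_rat hq (hF.le.trans inf_le_left)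
        (hF.le.trans inf_le_right)
      exact ⟨r, k1, k2, fun V hV => ⟨_, mem_mk_of (A := fun t => realN (ratc t)) t V.top,
        rel_LN.mpr (V.mono k3 hV), rel_LN.mpr (V.mono k4 hV)⟩⟩
  · intro A h1 h2 h3
    obtain ⟨A, rfl⟩ := mk_surj A
    choose τ hτ using fun s => Rep.ex
      (P := fun U y => mem U y (mk U A) ∧ mem U (mk U (qN s)) y)
      (fun y => (Rep.mem y A).and (Rep.mem _ y))
    have hsub : Rep (fun U => ∀ a, mem U a (mk U A) → mem U a (mk U RN)) :=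
      Rep.all (fun a => (Rep.mem a A).imp (Rep.mem a _))
    have hub : ∀ b, Rep (fun U => ∀ a, mem U a (mk U A) → ¬ Rel (mem U) (mk U LN) (mk U b) a) :=
      fun b => Rep.all (fun a => (Rep.mem a A).imp (rep_rel _ b a).not)
    -- an element of `A` containing a node, localised
    have hloc : ∀ q, q ≠ ⊥ → Forces q (fun U => ∀ a, mem U a (mk U A) → mem U a (mk U RN)) →
        ∀ {P : ∀ U : Ultra B, Mod U → Prop}, (∀ x, Rep (fun U => P U (mk U x))) →
        Forces q (fun U => ∃ a, mem U a (mk U A) ∧ P U a) →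
        ∃ σ r, r ≠ ⊥ ∧ r ≤ q ∧ r ≤ cut σ ∧
          Forces r (fun U => mem U (mk U (realN σ)) (mk U A) ∧ P U (mk U (realN σ))) := by
      intro q hq g1 P hP g2
      obtain ⟨V, hV, a, k1, k2⟩ := g2.exists hq
      obtain ⟨σ, rfl, k3⟩ := exists_realN (g1 V hV a k1)
      obtain ⟨r, m1, m2, m3⟩ := ((Rep.mem (realN σ) A).and (hP _)).localize ⟨k1, k2⟩ (V.inf hV k3)
      exact ⟨σ, r, m1, m2.trans inf_le_left, m2.trans inf_le_right, m3⟩
    have hin : ∀ (V : Ultra B) σ s, mem V (mk V (realN σ)) (mk V A) → V.s (σ s) → V.s (τ s) :=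
      fun V σ s g1 g2 => (hτ s V).mpr ⟨_, g1, (mem_realN V s σ).mpr g2⟩
    have hnot : ∀ (V : Ultra B) ρ, (∀ a, mem V a (mk V A) → mem V a (mk V RN)) →
        (∀ a, mem V a (mk V A) → ¬ Rel (mem V) (mk V LN) (mk V (realN ρ)) a) →
        ∀ s, V.s (τ s) → V.s (ρ s) := by
      intro V ρ g1 g2 s g3
      obtain ⟨a, k1, k2⟩ := (hτ s V).mp g3
      obtain ⟨σ, rfl, -⟩ := exists_realN (g1 a k1)
      by_contra hc
      exact g2 _ k1 (rel_LN.mpr (V.mono (le_ltv s inf_le_left inf_le_right)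
        (V.inf ((mem_realN V s σ).mp k2) (V.compl_iff.mpr hc))))
    obtain ⟨b, hb1, hb2⟩ := h3
    obtain ⟨ρ, rfl, hρ⟩ := exists_realN hb1
    obtain ⟨p, hp, hF⟩ : ∃ p, U.s p ∧ Forces p (fun U => U.s (cut ρ) ∧
        (∀ a, mem U a (mk U A) → mem U a (mk U RN)) ∧ (∃ a, mem U a (mk U A) ∧ True) ∧
        ∀ a, mem U a (mk U A) → ¬ Rel (mem U) (mk U LN) (mk U (realN ρ)) a) := by
      obtain ⟨p, hp⟩ := (Rep.of_s (cut ρ)).and (hsub.and ((Rep.ex
        (P := fun U a => mem U a (mk U A)) (fun a => Rep.mem a A)).and (hub (realN ρ))))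
      exact ⟨p, (hp U).mpr ⟨hρ, h1, h2, hb2⟩, fun V hV => by simpa using (hp V).mp hV⟩
    have hcut : p ≤ cut τ := by
      apply le_cut
      · intro q hq g
        obtain ⟨σ, r, k1, k2, k3, k4⟩ := hloc q hq (fun V hV => (hF V (V.mono g hV)).2.1)
          (P := fun _ _ => True) (fun _ => ⟨⊤, fun V => iff_true_intro V.top⟩)
          (fun V hV => (hF V (V.mono g hV)).2.2.1)
        obtain ⟨s, r', m1, m2, m3⟩ := cut_ne k3 k1
        exact ⟨s, r', m1, m2.trans k2, le_of_ultra (fun V hV =>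
          hin V σ s (k4 V (V.mono m2 hV)).1 (V.mono m3 hV))⟩
      · intro q hq g
        obtain ⟨s, r, m1, m2, m3⟩ := cut_proper
          (le_of_ultra (fun V hV => (hF V (V.mono g hV)).1)) hq
        refine ⟨s, r, m1, m2, le_of_ultra (fun V hV => V.compl_iff.mpr (fun k => ?_))⟩
        have := hF V (V.mono (m2.trans g) hV)
        exact V.compl_iff.mp (V.mono m3 hV) (hnot V ρ this.2.1 this.2.2.2 s k)
      · intro s t q hst g k
        refine le_of_ultra (fun V hV => ?_)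
        obtain ⟨a, k1, k2⟩ := (hτ t V).mp (V.mono k hV)
        obtain ⟨σ, rfl, k3⟩ := exists_realN ((hF V (V.mono g hV)).2.1 a k1)
        exact hin V σ s k1 (V.mono (cut_down inf_le_left hst inf_le_right)
          (V.inf k3 ((mem_realN V t σ).mp k2)))
      · intro s q hq g k
        obtain ⟨σ, r, k1, k2, k3, k4⟩ := hloc q hq (fun V hV => (hF V (V.mono g hV)).2.1)
          (P := fun U a => mem U (mk U (qN s)) a) (fun a => Rep.mem _ a)
          (fun V hV => (hτ s V).mp (V.mono k hV))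
        obtain ⟨t, r', m0, m1, m2, m3⟩ := cut_nomax k3 k1
          (le_of_ultra (fun V hV => (mem_realN V s σ).mp (k4 V hV).2))
        exact ⟨t, r', m0, m1, m2.trans k2, le_of_ultra (fun V hV =>
          hin V σ t (k4 V (V.mono m2 hV)).1 (V.mono m3 hV))⟩
    refine ⟨mk U (realN τ), realN_mem.mpr (U.mono hcut hp), ?_, ?_⟩
    · intro a ha
      obtain ⟨σ, rfl, -⟩ := exists_realN (h1 a ha)
      rw [rel_LN]
      intro hlt
      refine U.bot (U.mono ?_ (U.inf ha hlt))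
      refine ltv_cases inf_le_right (fun s q g k1 k2 => le_of_ultra (fun V hV => ?_))
      exact absurd (hin V σ s (V.mono (g.trans inf_le_left) hV) (V.mono k1 hV))
        (V.compl_iff.mp (V.mono k2 hV))
    · intro b hb hb'
      obtain ⟨ρ', rfl, -⟩ := exists_realN hb
      rw [rel_LN]
      intro hlt
      obtain ⟨p', hp'⟩ := hsub.and (hub (realN ρ'))
      refine U.bot (U.mono ?_ (U.inf ((hp' U).mpr ⟨h1, hb'⟩) hlt))
      refine ltv_cases inf_le_right (fun s q g k1 k2 => le_of_ultra (fun V hV => ?_))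
      have := (hp' V).mp (V.mono (g.trans inf_le_left) hV)
      exact absurd (hnot V ρ' this.1 this.2 s (V.mono k1 hV)) (V.compl_iff.mp (V.mono k2 hV))

end Pool.Agent.P.MP_54b694_lc
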