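import Mathlib
import Pool.Agent.P.MP_54b694_lc.Real
import Pool.Agent.P.MP_54b694_lc.Cohen

/-! Cohen reals along threads of coordinates, and their Luzin property. -/

namespace Pool.Agent.P.MP_54b694_lc

open Name

theorem ext_pre : ∀ (m : ℕ) (y : ℕ → Bool) (u : List Bool) (i : ℕ), i < m →
    ext (pre y m ++ u) i = y i
  | 0, _, _, _, h => by omega
  | _ + 1, _, _, 0, _ => rfl
  | m + 1, y, u, i + 1, h => ext_pre m (fun n => y (n + 1)) u i (by omega)

theorem nowhereDense_of_subsingleton {M : Type 1} {E : M → M → Prop} {R L A x : M}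
    (h : IsRealLine E R L) (hx : E x R) (hA : ∀ a, E a A → a = x) : NowhereDense E R L A := by
  obtain ⟨-, hirr, htr, -, -, ⟨D, -, hD, hden⟩, -⟩ := h
  refine ⟨fun a ha => hA a ha ▸ hx, fun u v hu hv huv => ?_⟩
  obtain ⟨d1, m1, a1, b1⟩ := hden u v hu hv huv
  obtain ⟨d2, m2, a2, b2⟩ := hden d1 v (hD _ m1) hv b1
  obtain ⟨d3, m3, a3, b3⟩ := hden d2 v (hD _ m2) hv b2
  by_cases hc : Rel E L d2 x
  · refine ⟨d1, d2, hD _ m1, hD _ m2, a1, a2, b2, fun a ha h => ?_⟩
    rw [hA a ha] at h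
    exact hirr x hx (htr x d2 x hx (hD _ m2) hx h.2 hc)
  · refine ⟨d2, d3, hD _ m2, hD _ m3, htr u d1 d2 hu (hD _ m1) (hD _ m2) a1 a2, a3, b3,
      fun a ha h => ?_⟩
    rw [hA a ha] at h
    exact hc h.1

variable {B : Type} [CompleteBooleanAlgebra B]

theorem rep_nd (R L A : Name B) :
    Rep (fun U => NowhereDense (mem U) (mk U R) (mk U L) (mk U A)) :=
  (Rep.all (fun a => (Rep.mem a A).imp (Rep.mem a R))).and
  (Rep.all (fun x => Rep.all (fun y => (Rep.mem x R).imp ((Rep.mem y R).imp ((rep_rel L x y).imp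
    (Rep.ex (fun x' => Rep.ex (fun y' => (Rep.mem x' R).and ((Rep.mem y' R).and
      ((rep_rel L x x').and ((rep_rel L x' y').and ((rep_rel L y' y).and
        (Rep.all (fun a => (Rep.mem a A).imp
          ((rep_rel L x' a).and (rep_rel L a y')).not))))))))))))))

theorem rep_meager_aux (R L A N : Name B) :
    Rep (fun U => IsCountable (mem U) (mk U N) ∧
      (∀ n, mem U n (mk U N) → NowhereDense (mem U) (mk U R) (mk U L) n) ∧
      ∀ a, mem U a (mk U A) ↔ ∃ n, mem U n (mk U N) ∧ mem U a n) :=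
  (rep_countable N).and ((Rep.all (fun n => (Rep.mem n N).imp (rep_nd R L n))).and
    (Rep.all (fun a => (Rep.mem a A).iff (Rep.ex (fun n => (Rep.mem n N).and (Rep.mem a n))))))

theorem rep_meager (R L A : Name B) :
    Rep (fun U => Meager (mem U) (mk U R) (mk U L) (mk U A)) :=
  Rep.ex (fun N => rep_meager_aux R L A N)

theorem meager_of_nd {U : Ultra B} {R L A : Mod U} (h : NowhereDense (mem U) R L A) :
    Meager (mem U) R L A := by
  obtain ⟨A, rfl⟩ := mk_surj A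
  refine ⟨mk U (upair A A), forces_countable (covered_mk ⊤ _ _) U U.top, ?_, ?_⟩
  · intro n hn
    rw [mem_upair, or_self] at hn
    rwa [hn]
  · intro a
    simp [mem_upair]

theorem two_rat {q : B} {τ σ : List Bool → B} (hq : q ≠ ⊥) (hc : q ≤ cut σ)
    (h : q ≤ ltv τ σ) : ∃ a b r, qlt a b ∧ r ≠ ⊥ ∧ r ≤ q ∧ r ≤ ltv τ (ratc a) ∧
      r ≤ ltv (ratc b) σ := by
  obtain ⟨a, r, k1, k2, k3, k4⟩ := dense_rat hq hc h
  obtain ⟨b, r', m1, m2, m3, m4⟩ := dense_rat k1 (k2.trans hc) k4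
  exact ⟨a, b, r', qlt_of_ltv m1 m3, m1, m2.trans k2, m2.trans k3, m4⟩

namespace Cohen

variable {J : Type} (C : Cohen J B)

/-- The condition deciding the first `n` bits along the thread `e`. -/
def cyl (e : ℕ → J) (x : ℕ → Bool) (n : ℕ) : B :=
  (Finset.range n).inf (fun i => C.lit (e i) (x i))

theorem pt_cyl (e : ℕ → J) (x : ℕ → Bool) (n : ℕ) (f : J → Bool) :
    C.pt f (C.cyl e x n) ↔ ∀ i < n, f (e i) = x i := by
  simp only [cyl, C.pt_finset_inf, C.pt_lit, Finset.mem_range]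

/-- The cut of the generic branch read along the thread `e`. -/
def thr (e : ℕ → J) (s : List Bool) : B := ⨆ x : {x // below s x}, C.cyl e x (s.length + 1)

theorem pt_thr_of {e : ℕ → J} {s : List Bool} {f : J → Bool} (h : below s (fun i => f (e i))) :
    C.pt f (C.thr e s) :=
  C.pt_mono (le_iSup (fun x : {x // below s x} => C.cyl e x (s.length + 1)) ⟨_, h⟩)
    ((C.pt_cyl _ _ _ _).mpr (fun _ _ => rfl))

theorem pt_thr_compl {e : ℕ → J} {s : List Bool} {f : J → Bool}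
    (h : ¬ below s (fun i => f (e i))) : C.pt f (C.thr e s)ᶜ := by
  refine C.pt_mono (a := C.cyl e (fun i => f (e i)) (s.length + 1)) ?_
    ((C.pt_cyl _ _ _ _).mpr (fun _ _ => rfl))
  refine le_compl_of (fun q hq g1 g2 => ?_)
  obtain ⟨x, r, k1, k2, k3⟩ := exists_of_le_iSup hq g2
  obtain ⟨g, hg⟩ := C.exists_pt k1
  have m1 := (C.pt_cyl _ _ _ _).mp (C.pt_mono (k2.trans g1) hg)
  have m2 := (C.pt_cyl _ _ _ _).mp (C.pt_mono k3 hg)
  exact h (below_congr s (fun i hi => (m2 i (by omega)).symm.trans (m1 i (by omega))) x.2)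

theorem below_of_pt {e : ℕ → J} {s : List Bool} {f : J → Bool} (h : C.pt f (C.thr e s)) :
    below s (fun i => f (e i)) := by
  by_contra hc
  exact C.ne_bot (C.pt_inf h (C.pt_thr_compl hc)) inf_compl_eq_bot

theorem not_below_of_pt {e : ℕ → J} {s : List Bool} {f : J → Bool} (h : C.pt f (C.thr e s)ᶜ) :
    ¬ below s (fun i => f (e i)) :=
  fun hc => C.ne_bot (C.pt_inf (C.pt_thr_of hc) h) inf_compl_eq_bot

theorem exists_bound {e : ℕ → J} (he : Function.Injective e) (s : Finset J) :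
    ∃ n, ∀ i, e i ∈ s → i < n := by
  obtain ⟨n, hn⟩ := (s.finite_toSet.preimage he.injOn).bddAbove
  exact ⟨n + 1, fun i hi => Nat.lt_succ_of_le (hn hi)⟩

theorem extend_agree {e : ℕ → J} (he : Function.Injective e) {s : Finset J} {n : ℕ}
    (hn : ∀ i, e i ∈ s → i < n) {f g : J → Bool} {y : ℕ → Bool} (hy : ∀ i < n, y i = f (e i))
    (hg : ∀ j ∈ s, g j = f j) : ∀ j ∈ s, Function.extend e y g j = f j := by
  intro j hj
  by_cases h : ∃ i, e i = j
  · obtain ⟨i, rfl⟩ := h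
    rw [he.extend_apply, hy i (hn i hj)]
  · rw [Function.extend_apply' _ _ _ h, hg j hj]

theorem exists_modify {e : ℕ → J} (he : Function.Injective e) {q : B} (hq : q ≠ ⊥) (m : ℕ)
    (v : Bool) : ∃ f n, m < n ∧ C.pt f q ∧ f (e n) = v := by
  obtain ⟨f, hf⟩ := C.exists_pt hq
  obtain ⟨s, hs⟩ := C.loc hf
  obtain ⟨n, hn⟩ := exists_bound he s
  refine ⟨Function.extend e (fun i => if i < n then f (e i) else v) f, n + m + 1, by omega,
    hs _ (extend_agree he hn (fun i hi => by simp [hi]) (fun _ _ => rfl)), ?_⟩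
  rw [he.extend_apply, if_neg (by omega)]

theorem cut_thr {e : ℕ → J} (he : Function.Injective e) (Γ : B) : Γ ≤ cut (C.thr e) := by
  apply le_cut
  · intro q hq _
    obtain ⟨f, n, -, h1, h2⟩ := C.exists_modify he hq 0 true
    exact ⟨pre (fun i => f (e i)) n, _, C.ne_bot (C.pt_inf h1 (C.pt_thr_of
      ((below_pre n _).mpr h2))), inf_le_left, inf_le_right⟩
  · intro q hq _
    obtain ⟨f, n, -, h1, h2⟩ := C.exists_modify he hq 0 false
    exact ⟨pre (fun i => f (e i)) n, _, C.ne_bot (C.pt_inf h1 (C.pt_thr_compl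
      (by rw [below_pre]; simp [h2]))), inf_le_left, inf_le_right⟩
  · intro s t q hst _ k
    exact C.le_of_pt (fun f hf => C.pt_thr_of (below_of_qlt hst (C.below_of_pt (C.pt_mono k hf))))
  · intro s q hq _ k
    obtain ⟨f, n, h0, h1, h2⟩ := C.exists_modify he hq s.length true
    exact ⟨pre (fun i => f (e i)) n, _, qlt_pre s n _ h0 (C.below_of_pt (C.pt_mono k h1)),
      C.ne_bot (C.pt_inf h1 (C.pt_thr_of ((below_pre n _).mpr h2))), inf_le_left, inf_le_right⟩

theorem thr_mem {e : ℕ → J} (he : Function.Injective e) (U : Ultra B) :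
    mem U (mk U (realN (C.thr e))) (mk U RN) :=
  realN_mem.mpr (U.mono (C.cut_thr he ⊤) U.top)

theorem thr_ne {e e' : ℕ → J} (h : ∀ s : Finset J, ∃ m, e m ∉ s ∧ e' m ∉ s ∧ e m ≠ e' m)
    (U : Ultra B) : mk U (realN (C.thr e)) ≠ mk U (realN (C.thr e')) := by
  classical
  intro hU
  obtain ⟨f, hf⟩ := C.exists_pt (U.ne_bot (mk_eq.mp hU))
  obtain ⟨s, hs⟩ := C.loc hf
  obtain ⟨m, h1, h2, h3⟩ := h s
  let g := Function.update (Function.update f (e m) false) (e' m) true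
  have hg := hs g (fun j hj => by
    simp only [g]
    rw [Function.update_of_ne (by rintro rfl; exact h2 hj),
      Function.update_of_ne (by rintro rfl; exact h1 hj)])
  have hne : (fun i => g (e i)) m ≠ (fun i => g (e' i)) m := by
    simp [g, Function.update_of_ne h3]
  obtain ⟨t, -, ht⟩ := exists_sep_node (x := fun i => g (e i)) (y := fun i => g (e' i)) (m := m) hne
  apply ht
  constructor
  · intro hb
    exact C.below_of_pt (C.pt_mono (le_of_beq_realN inf_le_left inf_le_right)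
      (C.pt_inf hg (C.pt_thr_of hb)))
  · intro hb
    exact C.below_of_pt (C.pt_mono (le_of_beq_realN (le_beq_symm inf_le_left) inf_le_right)
      (C.pt_inf hg (C.pt_thr_of hb)))

theorem luzin_nd (N : Name B) : ∃ S : Set J, S.Countable ∧ ∀ e : ℕ → J, Function.Injective e →
    (∀ i, e i ∉ S) → ∀ U, NowhereDense (mem U) (mk U RN) (mk U LN) (mk U N) →
      ¬ mem U (mk U (realN (C.thr e))) (mk U N) := by
  choose b hb using fun p : List Bool × List Bool => Rep.all
    (P := fun U z => mem U z (mk U N) → ¬ (Rel (mem U) (mk U LN) (mk U (realN (ratc p.1))) z ∧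
      Rel (mem U) (mk U LN) z (mk U (realN (ratc p.2)))))
    (fun z => (Rep.mem z N).imp ((rep_rel _ _ z).and (rep_rel _ z _)).not)
  choose S hS1 hS2 using fun p => C.exists_support (b p)
  refine ⟨⋃ p, S p, Set.countable_iUnion hS1, fun e he hes U h1 h2 => ?_⟩
  obtain ⟨q, hq, -, hF⟩ := ((rep_nd RN LN N).and (Rep.mem (realN (C.thr e)) N)).localize
    ⟨h1, h2⟩ U.top
  obtain ⟨f, hf⟩ := C.exists_pt hq
  obtain ⟨s, hs⟩ := C.loc hf
  obtain ⟨n, hn⟩ := exists_bound he s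
  let y0 : ℕ → Bool := fun i => f (e i)
  let q' : B := s.inf (fun j => C.lit j (f j))
  have hq'pt : ∀ g, C.pt g q' ↔ ∀ j ∈ s, g j = f j := fun g => by
    simp only [q', C.pt_finset_inf, C.pt_lit]
  have hq'q : q' ≤ q := C.le_of_pt (fun g hg => hs g ((hq'pt g).mp hg))
  obtain ⟨V, hV⟩ := exists_ultra (C.ne_bot ((hq'pt f).mpr (fun _ _ => rfl)))
  have hrat : ∀ (V : Ultra B) t, mem V (mk V (realN (ratc t))) (mk V RN) :=
    fun V t => realN_mem.mpr (V.mono (cut_ratc _ _) V.top)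
  obtain ⟨x', y', m1, m2, m3, m4, m5, m6⟩ := (hF V (V.mono hq'q hV)).1.2 _ _
    (hrat V (pre y0 n ++ [false])) (hrat V (pre y0 n ++ [true]))
    (rel_LN.mpr (V.mono (ltv_ratc_ratc ⊤
      (qlt_trans (qlt_append_false _ _) (qlt_append_true _ _))) V.top))
  obtain ⟨τ, rfl, c1⟩ := exists_realN m1
  obtain ⟨σ, rfl, c2⟩ := exists_realN m2
  rw [rel_LN] at m3 m4 m5
  obtain ⟨r, r1, r2, r3⟩ := (Rep.all (P := fun U z => mem U z (mk U N) →
      ¬ (Rel (mem U) (mk U LN) (mk U (realN τ)) z ∧ Rel (mem U) (mk U LN) z (mk U (realN σ))))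
    (fun z => (Rep.mem z N).imp ((rep_rel _ _ z).and (rep_rel _ z _)).not)).localize m6
    (V.inf (V.inf (V.inf hV c1) c2) (V.inf (V.inf m3 m4) m5))
  simp only [le_inf_iff] at r2
  obtain ⟨⟨⟨s1, s2⟩, s3⟩, ⟨s4, s5⟩, s6⟩ := r2
  obtain ⟨a', b', r', t0, t1, t2, t3, t4⟩ := two_rat r1 s3 s5
  have ha : qlt (pre y0 n ++ [false]) a' :=
    qlt_of_ltv t1 (ltv_trans (t2.trans s2) (cut_ratc _ _) (t2.trans s4) t3)
  have hb' : qlt b' (pre y0 n ++ [true]) :=
    qlt_of_ltv t1 (ltv_trans (t2.trans s3) (cut_ratc _ _) t4 (t2.trans s6))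
  have hrb : r' ≤ b (a', b') := by
    refine le_of_ultra (fun W hW => (hb (a', b') W).mpr (fun z hz hz' => ?_))
    have hzR := (hF W (W.mono ((t2.trans s1).trans hq'q) hW)).1.1 z hz
    refine r3 W (W.mono t2 hW) z hz ⟨?_, ?_⟩
    · exact mod_lt_trans W _ _ _ (realN_mem.mpr (W.mono (t2.trans s2) hW)) (hrat W a') hzR
        (rel_LN.mpr (W.mono t3 hW)) hz'.1
    · exact mod_lt_trans W _ _ _ hzR (hrat W b') (realN_mem.mpr (W.mono (t2.trans s3) hW))
        hz'.2 (rel_LN.mpr (W.mono t4 hW))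
  obtain ⟨g, g1, g2⟩ := hS2 (a', b') q'
    (fun h => t1 (le_bot_iff.mp ((le_inf (t2.trans s1) hrb).trans h.le)))
  obtain ⟨b'', u1, u2⟩ := qlt_dense t0
  have v1 : below a' (ext b'') := (below_ext _ _).mpr u1
  have v2 : ¬ below b'' (ext b'') := fun h => qlt_irrefl _ ((below_ext _ _).mp h)
  have hagree := agree_of_between n y0 (ext b'') (below_of_qlt ha v1)
    (fun h => v2 (below_of_qlt (qlt_trans u2 hb') h))
  let g' := Function.extend e (ext b'') g
  have w0 : (fun i => g' (e i)) = ext b'' := funext (fun i => he.extend_apply _ _ i)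
  have w1 : C.pt g' q := hs g' (extend_agree he hn hagree ((hq'pt g).mp g1))
  have w2 : C.pt g' (b (a', b')) := g2 g' (fun j hj => Function.extend_apply' _ _ _ (by
    rintro ⟨i, rfl⟩
    exact hes i (Set.mem_iUnion.mpr ⟨_, hj⟩)))
  have w3 : C.pt g' (C.thr e a') := C.pt_thr_of (by rw [w0]; exact v1)
  have w4 : C.pt g' (C.thr e b'')ᶜ := C.pt_thr_compl (by rw [w0]; exact v2)
  obtain ⟨W, hW⟩ := exists_ultra (C.ne_bot (C.pt_inf (C.pt_inf w1 w2) (C.pt_inf w3 w4)))
  simp only [W.inf_iff] at hW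
  exact (hb (a', b') W).mp hW.1.2 _ (hF W hW.1.1).2
    ⟨rel_LN.mpr (W.mono (ltv_ratc_left le_rfl) hW.2.1),
      rel_LN.mpr (W.mono (ltv_ratc_right u2 le_rfl) hW.2.2)⟩

theorem luzin_meager (A : Name B) : ∃ S : Set J, S.Countable ∧ ∀ e : ℕ → J, Function.Injective e →
    (∀ i, e i ∉ S) → ∀ U, Meager (mem U) (mk U RN) (mk U LN) (mk U A) →
      ¬ mem U (mk U (realN (C.thr e))) (mk U A) := by
  obtain ⟨N, hN⟩ := Rep.witness (P := fun U N => IsCountable (mem U) N ∧
      (∀ n, mem U n N → NowhereDense (mem U) (mk U RN) (mk U LN) n) ∧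
      ∀ a, mem U a (mk U A) ↔ ∃ n, mem U n N ∧ mem U a n) (fun N => rep_meager_aux RN LN A N)
  obtain ⟨p, hp⟩ := rep_countable N
  obtain ⟨y, hy⟩ := exists_cover_of_countable (p := p) (N := N) (fun U hU => (hp U).mp hU)
  choose S hS1 hS2 using fun k => C.luzin_nd (y k)
  refine ⟨⋃ k, S k, Set.countable_iUnion hS1, fun e he hes U h1 h2 => ?_⟩
  obtain ⟨g1, g2, g3⟩ := hN U h1
  obtain ⟨n, k1, k2⟩ := (g3 _).mp h2
  obtain ⟨n, rfl⟩ := mk_surj n
  obtain ⟨q, m1, m2, m3⟩ := ((Rep.mem n N).and ((rep_nd RN LN n).and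
    (Rep.mem (realN (C.thr e)) n))).localize ⟨k1, g2 _ k1, k2⟩ ((hp U).mpr g1)
  obtain ⟨k, r, r1, r2, r3⟩ := hy n q m1 m2 (fun V hV => (m3 V hV).1)
  obtain ⟨V, hV, hV'⟩ := r3.exists r1
  have := (m3 V (V.mono r2 hV)).2
  rw [hV'] at this
  exact hS2 k e he (fun i hi => hes i (Set.mem_iUnion.mpr ⟨k, hi⟩)) V this.1 this.2

theorem nd_family {T : Type} (e : T → ℕ → J) (he : ∀ t, Function.Injective (e t)) (c : ℕ → J)
    (hc : ∀ t k, e t (2 * k) = c k) (U : Ultra B) :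
    NowhereDense (mem U) (mk U RN) (mk U LN)
      (mk U (Name.mk T (fun t => realN (C.thr (e t))) (fun _ => ⊤))) := by
  set X : Name B := Name.mk T (fun t => realN (C.thr (e t))) (fun _ => ⊤) with hX
  have hrat : ∀ (V : Ultra B) t, mem V (mk V (realN (ratc t))) (mk V RN) :=
    fun V t => realN_mem.mpr (V.mono (cut_ratc _ _) V.top)
  refine ⟨of_mem_mk (P := fun U d => mem U d (mk U RN)) (fun d => Rep.mem d _)
    (fun t V _ => C.thr_mem (he t) V) U, fun x y hx hy hxy => ?_⟩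
  obtain ⟨τ, rfl, -⟩ := exists_realN hx
  obtain ⟨σ, rfl, c2⟩ := exists_realN hy
  refine Rep.imp_of_dense (P := fun U => U.s (cut σ ⊓ ltv τ σ))
    (Q := fun U => ∃ x' y', mem U x' (mk U RN) ∧ mem U y' (mk U RN) ∧
      Rel (mem U) (mk U LN) (mk U (realN τ)) x' ∧ Rel (mem U) (mk U LN) x' y' ∧
      Rel (mem U) (mk U LN) y' (mk U (realN σ)) ∧
      ∀ a, mem U a (mk U X) → ¬ (Rel (mem U) (mk U LN) x' a ∧ Rel (mem U) (mk U LN) a y'))
    (Rep.of_s _) (Rep.ex (fun x' => Rep.ex (fun y' => (Rep.mem x' _).and ((Rep.mem y' _).and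
      ((rep_rel _ _ x').and ((rep_rel _ x' y').and ((rep_rel _ y' _).and
        (Rep.all (fun a => (Rep.mem a X).imp
          ((rep_rel _ x' a).and (rep_rel _ a y')).not))))))))) ?_ U (U.inf c2 (rel_LN.mp hxy))
  intro q hq hF
  have hcσ := hF.le.trans inf_le_left
  obtain ⟨a, b, r, t0, t1, t2, t3, t4⟩ := two_rat hq hcσ (hF.le.trans inf_le_right)
  obtain ⟨y, n, hy⟩ := exists_cone t0
  obtain ⟨f, hf⟩ := C.exists_pt t1
  let y' := Function.update y (2 * n) (!(f (c n)))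
  have hy' : ∀ u i, i < n → ext (pre y' (2 * n + 1) ++ u) i = y i := fun u i hi => by
    rw [ext_pre _ _ _ _ (by omega)]
    exact Function.update_of_ne (by omega) _ _
  have ha : qlt a (pre y' (2 * n + 1) ++ [false]) := (below_ext _ _).mp (hy _ (hy' _)).1
  have hb : qlt (pre y' (2 * n + 1) ++ [true]) b := by
    have h1 := (hy _ (hy' [true, true])).2
    have h2 : below (pre y' (2 * n + 1) ++ [true]) (ext (pre y' (2 * n + 1) ++ [true, true])) := by
      rw [below_ext]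
      simpa using qlt_append_true (pre y' (2 * n + 1) ++ [true]) []
    rcases qlt_total (pre y' (2 * n + 1) ++ [true]) b with h | h | h
    · exact h
    · exact absurd (h ▸ h2) h1
    · exact absurd (below_of_qlt h h2) h1
  refine ⟨r ⊓ C.lit (c n) (f (c n)), C.ne_bot (C.pt_inf hf ((C.pt_lit _ _ _).mpr rfl)),
    inf_le_left.trans t2, fun V hV => ?_⟩
  have hr := V.mono inf_le_left hV
  refine ⟨_, _, hrat V (pre y' (2 * n + 1) ++ [false]), hrat V (pre y' (2 * n + 1) ++ [true]),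
    rel_LN.mpr (V.mono (ltv_trans (cut_ratc _ _) (cut_ratc _ _) t3 (ltv_ratc_ratc _ ha)) hr),
    rel_LN.mpr (V.mono (ltv_ratc_ratc ⊤
      (qlt_trans (qlt_append_false _ _) (qlt_append_true _ _))) V.top),
    rel_LN.mpr (V.mono (ltv_trans (cut_ratc _ _) (t2.trans hcσ) (ltv_ratc_ratc _ hb) t4) hr),
    fun z hz => ?_⟩
  refine of_mem_mk (P := fun W z => W.s (C.lit (c n) (f (c n))) →
      ¬ (Rel (mem W) (mk W LN) (mk W (realN (ratc (pre y' (2 * n + 1) ++ [false])))) z ∧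
        Rel (mem W) (mk W LN) z (mk W (realN (ratc (pre y' (2 * n + 1) ++ [true]))))))
    (fun z => (Rep.of_s _).imp ((rep_rel _ _ z).and (rep_rel _ z _)).not) ?_ V z hz
    (V.mono inf_le_right hV)
  rintro t W - h1 ⟨h2, h3⟩
  rw [rel_LN] at h2 h3
  have h4 := W.mono (le_of_ltv_ratc_left (C.cut_thr (he t) _) le_rfl) h2
  have h5 := W.mono (le_of_ltv_ratc_right (C.cut_thr (he t) _) le_rfl) h3
  obtain ⟨g, hg⟩ := C.exists_pt (W.ne_bot (W.inf h1 (W.inf h4 h5)))
  have h6 := agree_of_between _ y' _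
    (C.below_of_pt (C.pt_mono (inf_le_right.trans inf_le_left) hg))
    (C.not_below_of_pt (C.pt_mono (inf_le_right.trans inf_le_right) hg)) (2 * n) (by omega)
  have h7 := (C.pt_lit _ _ _).mp (C.pt_mono inf_le_left hg)
  simp only [hc, h7, y', Function.update_self] at h6
  revert h6
  cases f (c n) <;> simp

end Cohen

end Pool.Agent.P.MP_54b694_lc
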