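import Mathlib
import Pool.Agent.P.MP_54b694_lc.Luzin

/-! The model: add a strong limit number of cofinality `ω₁` of Cohen reals. -/

namespace Pool.Agent.P.MP_54b694_lc

open Name Cardinal

theorem exists_index : ∃ (Ω : Type) (Kx : Ω → Type), ℵ₀ < #(Σ ξ, Kx ξ) ∧ #Ω < #(Σ ξ, Kx ξ) ∧
    (∀ S : Set Ω, S.Countable → #{k : Σ ξ, Kx ξ | k.1 ∈ S} < #(Σ ξ, Kx ξ)) ∧
    #(Σ ξ, Kx ξ) ^ ℵ₀ ≤ #(Σ ξ, Kx ξ) := by
  let Ω := (ℵ₁ : Cardinal.{0}).ord.ToType
  have hΩ : #Ω = ℵ₁ := Cardinal.mk_ord_toType _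
  let lam : Ω → Cardinal.{0} := WellFounded.fix (wellFounded_lt (α := Ω))
    (fun ξ ih => 2 ^ (Cardinal.sum (fun η : Set.Iio ξ => ih η η.2) + ℵ₁))
  have hlam : ∀ ξ, lam ξ = 2 ^ (Cardinal.sum (fun η : Set.Iio ξ => lam η) + ℵ₁) :=
    fun ξ => WellFounded.fix_eq _ _ ξ
  let Kx : Ω → Type := fun ξ => (lam ξ).out
  have hK : #(Σ ξ, Kx ξ) = Cardinal.sum lam := by simp [Kx]
  have hle : ∀ ξ, lam ξ ≤ #(Σ ξ, Kx ξ) := fun ξ => by rw [hK]; exact Cardinal.le_sum lam ξ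
  have hμ : ∀ ξ, #{k : Σ ξ, Kx ξ | k.1 < ξ} ≤ Cardinal.sum (fun η : Set.Iio ξ => lam η) := by
    intro ξ
    have : Cardinal.sum (fun η : Set.Iio ξ => lam η) = #(Σ η : Set.Iio ξ, Kx η) := by simp [Kx]
    rw [this]
    refine Cardinal.mk_le_of_surjective (f := fun p : (Σ η : Set.Iio ξ, Kx η) =>
      (⟨⟨p.1, p.2⟩, p.1.2⟩ : {k : Σ ξ, Kx ξ | k.1 < ξ})) ?_
    rintro ⟨⟨η, γ⟩, h⟩
    exact ⟨⟨⟨η, h⟩, γ⟩, rfl⟩
  have hbd : ∀ S : Set Ω, S.Countable → ∃ ξ, ∀ η ∈ S, η < ξ := by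
    intro S hS
    have h1 : (⋃ η ∈ S, Set.Iic η).Countable := by
      refine hS.biUnion (fun η _ => ?_)
      rw [← Set.Iio_insert]
      refine Set.Countable.insert _ ?_
      rw [Cardinal.countable_iff_lt_aleph_one]
      exact Cardinal.mk_Iio_toType_ord_lt η
    by_contra hcon
    push Not at hcon
    have h2 : (Set.univ : Set Ω).Countable := h1.mono (fun ξ _ => by
      obtain ⟨η, g1, g2⟩ := hcon ξ
      exact Set.mem_biUnion g1 g2)
    rw [Cardinal.countable_iff_lt_aleph_one, Cardinal.mk_univ, hΩ] at h2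
    exact lt_irrefl _ h2
  obtain ⟨ξ0, -⟩ := hbd ∅ Set.countable_empty
  have h1 : ℵ₁ < #(Σ ξ, Kx ξ) :=
    ((le_add_self.trans_lt (Cardinal.cantor _)).trans_eq (hlam ξ0).symm).trans_le (hle ξ0)
  refine ⟨Ω, Kx, Cardinal.aleph0_lt_aleph_one.trans h1, hΩ ▸ h1, fun S hS => ?_, ?_⟩
  · obtain ⟨ξ, hξ⟩ := hbd S hS
    refine (Cardinal.mk_le_mk_of_subset (s := {k : Σ ξ, Kx ξ | k.1 ∈ S})
      (t := {k : Σ ξ, Kx ξ | k.1 < ξ}) (fun k hk => hξ _ hk)).trans_lt ?_
    exact ((((hμ ξ).trans le_self_add).trans_lt (Cardinal.cantor _)).trans_eq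
      (hlam ξ).symm).trans_le (hle ξ)
  · have h2 : (Set.univ : Set (ℕ → Σ ξ, Kx ξ)) ⊆ ⋃ ξ, {f | ∀ n, (f n).1 < ξ} := by
      intro f _
      obtain ⟨ξ, hξ⟩ := hbd (Set.range (fun n => (f n).1)) (Set.countable_range _)
      exact Set.mem_iUnion.mpr ⟨ξ, fun n => hξ _ ⟨n, rfl⟩⟩
    have h3 : ∀ ξ, #{f : ℕ → Σ ξ, Kx ξ | ∀ n, (f n).1 < ξ} ≤ lam ξ := by
      intro ξ
      have e1 : #{f : ℕ → Σ ξ, Kx ξ | ∀ n, (f n).1 < ξ} ≤ #(ℕ → {k : Σ ξ, Kx ξ | k.1 < ξ}) :=
        Cardinal.mk_le_of_injective (f := fun f n => ⟨f.1 n, f.2 n⟩) (fun f g h =>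
          Subtype.ext (funext (fun n => congrArg Subtype.val (congrFun h n))))
      refine e1.trans ?_
      rw [← Cardinal.power_def, Cardinal.mk_nat, hlam]
      refine (Cardinal.power_le_power_right (((hμ ξ).trans le_self_add).trans
        (Cardinal.cantor (Cardinal.sum (fun η : Set.Iio ξ => lam η) + ℵ₁)).le)).trans ?_
      rw [← Cardinal.power_mul, Cardinal.mul_aleph0_eq
        (Cardinal.aleph0_lt_aleph_one.le.trans le_add_self)]
    calc #(Σ ξ, Kx ξ) ^ ℵ₀ = #(Set.univ : Set (ℕ → Σ ξ, Kx ξ)) := by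
          rw [Cardinal.mk_univ, ← Cardinal.power_def, Cardinal.mk_nat]
      _ ≤ _ := Cardinal.mk_le_mk_of_subset h2
      _ ≤ _ := Cardinal.mk_iUnion_le_sum_mk
      _ ≤ Cardinal.sum lam := Cardinal.sum_le_sum _ _ h3
      _ = _ := hK.symm

theorem exists_free {K : Type} (hK : ℵ₀ < #K) (T : K → Set K) (hT : ∀ k, (T k).Countable) :
    ∃ e : K → K, ∀ k l, k ≠ l → e l ∉ T (e k) ∧ e l ≠ e k ∨ e k ∉ T (e l) ∧ e l ≠ e k := by
  obtain ⟨A, -, h2, h3⟩ := exists_max_pairwise (fun _ : K => True)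
    (fun a b => b ∉ T a ∨ a ∉ T b) (fun a b h => h.symm)
  have hA : #K ≤ #A := by
    by_contra hlt
    push Not at hlt
    have h4 : (Set.univ : Set K) ⊆ A ∪ ⋃ a : A, T a := by
      intro x _
      rcases h3 x trivial with h | ⟨a, ha, h⟩
      · exact Or.inl h
      · push Not at h
        exact Or.inr (Set.mem_iUnion.mpr ⟨⟨a, ha⟩, h.2⟩)
    have h5 : #(⋃ a : A, T a) ≤ #A * ℵ₀ :=
      Cardinal.mk_iUnion_le_sum_mk.trans ((Cardinal.sum_le_sum _ (fun _ : A => ℵ₀)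
        (fun a => Cardinal.mk_le_aleph0_iff.mpr (hT a))).trans (Cardinal.sum_const' _ _).le)
    have h6 := (Cardinal.mk_le_mk_of_subset h4).trans (Cardinal.mk_union_le _ _)
    rw [Cardinal.mk_univ] at h6
    exact absurd h6 (not_le.mpr (Cardinal.add_lt_of_lt hK.le hlt
      (h5.trans_lt (Cardinal.mul_lt_of_lt hK.le hlt hK))))
  obtain ⟨e⟩ := Cardinal.le_def _ _ |>.mp hA
  refine ⟨fun k => e k, fun k l hkl => ?_⟩
  have hne : (e k : K) ≠ e l := fun h => hkl (e.injective (Subtype.ext h))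
  rcases h2 (e k).2 (e l).2 hne with h | h
  · exact Or.inl ⟨h, hne.symm⟩
  · exact Or.inr ⟨h, hne.symm⟩

theorem rep_cover {B : Type} [CompleteBooleanAlgebra B] (R L F : Name B) :
    Rep (fun U => MeagerCover (mem U) (mk U R) (mk U L) (mk U F)) :=
  (Rep.all (fun A => (Rep.mem A F).imp (rep_meager R L A))).and
    (Rep.all (fun x => (Rep.mem x R).iff (Rep.ex (fun A => (Rep.mem A F).and (Rep.mem x A)))))

theorem exists_model : ∃ (M : Type 1) (E : M → M → Prop), IsZFC E ∧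
    ∃ R L K : M, IsRealLine E R L ∧ IsCov E R L K ∧ IsSingular E K ∧
      ∃ X H : M, IsLuzin E R L K X ∧ CardLT E H K ∧ (∀ A, E A H → Meager E R L A) ∧
        ∀ x, E x X ↔ ∃ A, E A H ∧ E x A := by
  classical
  obtain ⟨Ω, Kx, hK0, hΩ, hS, hpow⟩ := exists_index
  set K := Σ ξ, Kx ξ with hKdef
  let J := (Ω ⊕ K) × ℕ
  let B := RO (J → Bool)
  obtain ⟨C⟩ : Nonempty (Cohen J B) := exists_cohen J
  have hJ : #J ≤ #K := by
    simp only [J, Cardinal.mk_prod, Cardinal.mk_sum, Cardinal.lift_id, Cardinal.mk_nat]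
    exact Cardinal.mul_le_of_le hK0.le (Cardinal.add_le_of_le hK0.le hΩ.le le_rfl) hK0.le
  have hB : #B ≤ #K := C.card_le hK0.le hJ hpow
  let ex : K → ℕ → J := fun k n => if n % 2 = 0 then (Sum.inl k.1, n) else (Sum.inr k, n)
  let ec : K → ℕ → J := fun k n => (Sum.inr k, n)
  have hex2 : ∀ k n, (ex k n).2 = n := fun k n => by
    simp only [ex]; split_ifs <;> rfl
  have hex : ∀ k, Function.Injective (ex k) := fun k m n h => by
    rw [← hex2 k m, h, hex2]
  have hec : ∀ k, Function.Injective (ec k) := fun k m n h => (Prod.ext_iff.mp h).2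
  let xN : K → Name B := fun k => realN (C.thr (ex k))
  let cN : K → Name B := fun k => realN (C.thr (ec k))
  have hxd : ∀ (U : Ultra B) k l, mk U (xN k) = mk U (xN l) → k = l := by
    intro U k l h
    by_contra hne
    refine C.thr_ne (fun s => ?_) U h
    obtain ⟨n1, h1⟩ := Cohen.exists_bound (hex k) s
    obtain ⟨n2, h2⟩ := Cohen.exists_bound (hex l) s
    refine ⟨2 * (n1 + n2) + 1, fun h => by have := h1 _ h; omega, fun h => by have := h2 _ h; omega,
      ?_⟩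
    have : ¬ (2 * (n1 + n2) + 1) % 2 = 0 := by omega
    simp only [ex, if_neg this]
    intro h
    exact hne (Sum.inr_injective (Prod.ext_iff.mp h).1)
  let X : Name B := Name.mk K xN (fun _ => ⊤)
  let Xi : Ω → Name B := fun ξ => Name.mk (Kx ξ) (fun γ => xN ⟨ξ, γ⟩) (fun _ => ⊤)
  let H : Name B := Name.mk Ω Xi (fun _ => ⊤)
  let F : Name B := Name.mk (List Bool → B) (fun τ => upair (realN τ) (realN τ)) cut
  have hxX : ∀ (U : Ultra B) k, mem U (mk U (xN k)) (mk U X) :=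
    fun U k => mem_mk_of (A := xN) k U.top
  have le_X : ∀ {I : Type} {p : B} {Y : Name B} {y : I → Name B}, Covered p Y y → #I ≤ #K →
      Forces p (fun U => CardLE (mem U) (mk U Y) (mk U X)) := by
    intro I p Y y h1 h2
    obtain ⟨e⟩ := (Cardinal.le_def _ _).mp h2
    exact forces_cardLE (z := fun i => xN (e i)) h1 (fun i U _ => hxX U _)
      (fun i j U _ h => e.injective (hxd U _ _ h))
  have not_le_X : ∀ {I : Type} {p : B} {Y : Name B} {y : I → Name B}, Covered p Y y → #I < #K →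
      Forces p (fun U => ¬ CardLE (mem U) (mk U X) (mk U Y)) := by
    intro I p Y y h1 h2
    exact forces_not_cardLE C.ccc (fun k U _ => hxX U k) (fun k l U _ => hxd U k l) h1 h2 hK0
  have lt_X : ∀ {I : Type} {p : B} {Y : Name B} {y : I → Name B}, Covered p Y y → #I < #K →
      Forces p (fun U => CardLT (mem U) (mk U Y) (mk U X)) :=
    fun h1 h2 U hU => ⟨le_X h1 h2.le U hU, not_le_X h1 h2 U hU⟩
  obtain ⟨U, -⟩ := exists_ultra (C.ne_bot (C.pt_top (fun _ => true)))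
  have hXX : ∀ V : Ultra B, CardLE (mem V) (mk V X) (mk V X) :=
    fun V => le_X (covered_mk ⊤ _ _) le_rfl V V.top
  have hHX : CardLT (mem U) (mk U H) (mk U X) := lt_X (covered_mk ⊤ _ _) hΩ U U.top
  have hunion : ∀ x, mem U x (mk U X) ↔ ∃ A, mem U A (mk U H) ∧ mem U x A := by
    intro x
    constructor
    · refine of_mem_mk (P := fun V x => ∃ A, mem V A (mk V H) ∧ mem V x A)
        (fun x => Rep.ex (fun A => (Rep.mem A H).and (Rep.mem x A))) ?_ U x
      rintro ⟨ξ, γ⟩ V -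
      exact ⟨_, mem_mk_of (A := Xi) ξ V.top, mem_mk_of (A := fun γ => xN ⟨ξ, γ⟩) γ V.top⟩
    · rintro ⟨A, h1, h2⟩
      obtain ⟨x, rfl⟩ := mk_surj x
      refine of_mem_mk (P := fun V A => mem V (mk V x) A → mem V (mk V x) (mk V X))
        (fun A => (Rep.mem x A).imp (Rep.mem x X)) ?_ U A h1 h2
      intro ξ V _
      exact of_mem_mk (P := fun V x => mem V x (mk V X)) (fun x => Rep.mem x X)
        (fun γ W _ => hxX W _) V _
  refine ⟨Mod U, mem U, mod_isZFC U, mk U RN, mk U LN, mk U X, isRealLine U, ⟨⟨mk U F, ⟨?_, ?_⟩, ?_⟩,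
    ?_⟩, ⟨?_, mk U H, hHX, ?_, hunion⟩, mk U X, mk U H, ⟨?_, hXX U, ?_⟩, hHX, ?_, hunion⟩
  · refine of_mem_mk (P := fun V A => Meager (mem V) (mk V RN) (mk V LN) A)
      (fun A => rep_meager _ _ A) ?_ U
    intro τ V hV
    exact meager_of_nd (nowhereDense_of_subsingleton (isRealLine V) (realN_mem.mpr hV)
      (fun a ha => by simpa [mem_upair] using ha))
  · intro x
    constructor
    · intro hx
      obtain ⟨τ, rfl, hτ⟩ := exists_realN hx
      exact ⟨_, mem_mk_of (A := fun τ => upair (realN τ) (realN τ)) τ hτ,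
        (mem_upair _ _ _ _).mpr (Or.inl rfl)⟩
    · rintro ⟨A, h1, h2⟩
      obtain ⟨x, rfl⟩ := mk_surj x
      refine of_mem_mk (P := fun V A => mem V (mk V x) A → mem V (mk V x) (mk V RN))
        (fun A => (Rep.mem x A).imp (Rep.mem x _)) ?_ U A h1 h2
      intro τ V g1 g2
      rw [mem_upair, or_self] at g2
      rw [g2]
      exact realN_mem.mpr g1
  · refine le_X (covered_mk ⊤ _ _) ?_ U U.top
    rw [← Cardinal.power_def, Cardinal.mk_eq_aleph0 (List Bool)]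
    exact (Cardinal.power_le_power_right hB).trans hpow
  · intro F' hF'
    obtain ⟨F', rfl⟩ := mk_surj F'
    obtain ⟨p, hp⟩ := rep_cover (B := B) RN LN F'
    choose y hy using fun k => Rep.witness
      (P := fun V A => mem V A (mk V F') ∧ mem V (mk V (cN k)) A)
      (fun A => (Rep.mem A F').and (Rep.mem _ A))
    have hy' : ∀ k (V : Ultra B), V.s p →
        mem V (mk V (y k)) (mk V F') ∧ mem V (mk V (cN k)) (mk V (y k)) :=
      fun k V hV => hy k V ((((hp V).mp hV).2 _).mp (C.thr_mem (hec k) V))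
    choose S hS1 hS2 using fun k => C.luzin_meager (y k)
    obtain ⟨e, he⟩ := exists_free hK0 (fun k => {l | ∃ n, ec l n ∈ S k}) (fun k => by
      have : {l | ∃ n, ec l n ∈ S k} ⊆
          (fun j : J => Sum.elim (fun _ => k) id j.1) '' S k := by
        rintro l ⟨n, hn⟩
        exact ⟨_, hn, rfl⟩
      exact ((hS1 k).image _).mono this)
    have key : ∀ a b (V : Ultra B), V.s p → (¬ ∃ n, ec b n ∈ S a) → mk V (y a) ≠ mk V (y b) := by
      intro a b V hV h1 h2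
      refine hS2 a (ec b) (hec b) (fun i hi => h1 ⟨i, hi⟩) V
        (((hp V).mp hV).1 _ (hy' a V hV).1) ?_
      rw [h2]
      exact (hy' b V hV).2
    refine forces_cardLE (p := p) (z := fun k => y (e k)) (covered_mk p xN _)
      (fun k V hV => (hy' _ V hV).1) (fun k l V hV h => ?_) U ((hp U).mpr hF')
    by_contra hne
    rcases he k l hne with g | g
    · exact key _ _ V hV g.1 h
    · exact key _ _ V hV g.1 h.symm
  · intro hc
    obtain ⟨q, q1, -, q3⟩ := (rep_countable X).localize hc U.top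
    obtain ⟨y, hy⟩ := exists_cover_of_countable q3
    obtain ⟨V, -, hV⟩ := (not_le_X hy (by simpa using hK0)).exists q1
    exact hV (hXX V)
  · refine of_mem_mk (P := fun V g => CardLT (mem V) g (mk V X)) (fun g => rep_cardLT g X) ?_ U
    intro ξ V _
    refine lt_X (covered_mk ⊤ _ _) (lt_of_le_of_lt ?_ (hS {ξ} (Set.countable_singleton ξ))) V V.top
    exact Cardinal.mk_le_of_injective (f := fun γ => ⟨⟨ξ, γ⟩, rfl⟩) (fun γ δ h => by
      simpa using h)
  · exact of_mem_mk (P := fun V x => mem V x (mk V RN)) (fun x => Rep.mem x _)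
      (fun k V _ => C.thr_mem (hex k) V) U
  · intro A Y h1 h2
    obtain ⟨A, rfl⟩ := mk_surj A
    obtain ⟨Y, rfl⟩ := mk_surj Y
    obtain ⟨p, hp⟩ := (rep_meager RN LN A).and (Rep.all
      (P := fun V x => mem V x (mk V Y) ↔ mem V x (mk V X) ∧ mem V x (mk V A))
      (fun x => (Rep.mem x Y).iff ((Rep.mem x X).and (Rep.mem x A))))
    obtain ⟨S, hS1, hS2⟩ := C.luzin_meager A
    refine lt_X (p := p) (y := fun k : {k : K | ∃ i, ex k i ∈ S} => xN k) ?_ ?_ U
      ((hp U).mpr ⟨h1, h2⟩)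
    · intro u q hq hqp hu
      obtain ⟨k, r, r1, r2, r3⟩ := covered_mk p xN (fun _ => ⊤) u q hq hqp
        (fun V hV => ((((hp V).mp (V.mono hqp hV)).2 _).mp (hu V hV)).1)
      refine ⟨⟨k, ?_⟩, r, r1, r2, r3⟩
      by_contra hk
      obtain ⟨V, hV, hV'⟩ := r3.exists r1
      have g1 := (hp V).mp (V.mono (r2.trans hqp) hV)
      have g2 := ((g1.2 _).mp (hu V (V.mono r2 hV))).2
      rw [hV'] at g2
      exact hS2 (ex k) (hex k) (fun i hi => hk ⟨i, hi⟩) V g1.1 g2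
    · have h3 : {k : K | ∃ i, ex k i ∈ S} ⊆
          {k : K | k.1 ∈ {ξ | ∃ n, (Sum.inl ξ, n) ∈ S}} ∪ {k : K | ∃ n, (Sum.inr k, n) ∈ S} := by
        rintro k ⟨i, hi⟩
        simp only [ex] at hi
        split_ifs at hi
        exacts [Or.inl ⟨i, hi⟩, Or.inr ⟨i, hi⟩]
      have h4 : {ξ : Ω | ∃ n, (Sum.inl ξ, n) ∈ S}.Countable :=
        ((hS1.image Prod.fst).preimage_of_injOn (f := Sum.inl) Sum.inl_injective.injOn).mono
          (by rintro ξ ⟨n, hn⟩; exact ⟨_, hn, rfl⟩)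
      have h5 : {k : K | ∃ n, (Sum.inr k, n) ∈ S}.Countable :=
        ((hS1.image Prod.fst).preimage_of_injOn (f := Sum.inr) Sum.inr_injective.injOn).mono
          (by rintro ξ ⟨n, hn⟩; exact ⟨_, hn, rfl⟩)
      exact ((Cardinal.mk_le_mk_of_subset h3).trans (Cardinal.mk_union_le _ _)).trans_lt
        (Cardinal.add_lt_of_lt hK0.le (hS _ h4)
          ((Cardinal.mk_le_aleph0_iff.mpr h5).trans_lt hK0))
  · refine of_mem_mk (P := fun V A => Meager (mem V) (mk V RN) (mk V LN) A)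
      (fun A => rep_meager _ _ A) ?_ U
    intro ξ V _
    exact meager_of_nd (C.nd_family (fun γ : Kx ξ => ex ⟨ξ, γ⟩) (fun γ => hex _)
      (fun k => (Sum.inl ξ, 2 * k)) (fun γ k => by simp [ex]) V)

end Pool.Agent.P.MP_54b694_lc
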